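import Mathlib

set_option autoImplicit false

/-!
Kernel friendly integer computation.
-/

namespace Pool.Agent.H36Flow

/-- list of scaled coefficients -/
def aList (K : ℕ) (fuel : ℕ) : ℕ → ℕ → List ℕ :=
  Nat.rec (fun _ _ => []) (fun _ ih i x =>
    List.cons (Nat.div (Nat.mul x (Nat.mul (Nat.mul 3 K)
        (Nat.mul (Nat.add (Nat.mul 6 i) 1) (Nat.add (Nat.mul 6 i) 5)))) (Nat.mul 2 (Nat.succ i)))
      (ih (Nat.succ i) (Nat.div (Nat.mul x (Nat.mul (Nat.mul 3 K)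
        (Nat.mul (Nat.add (Nat.mul 6 i) 1) (Nat.add (Nat.mul 6 i) 5)))) (Nat.mul 2 (Nat.succ i)))))
    fuel

/-- check of the recursion of the scaled coefficients -/
def goodA (K : ℕ) (l : List ℕ) : ℕ → ℕ → Bool :=
  List.rec (fun _ _ => true) (fun y _ ih i x =>
    Bool.rec false (ih (Nat.succ i) y) (Nat.beq (Nat.mul y (Nat.mul 2 (Nat.succ i)))
      (Nat.mul x (Nat.mul (Nat.mul 3 K)
        (Nat.mul (Nat.add (Nat.mul 6 i) 1) (Nat.add (Nat.mul 6 i) 5)))))) l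

/-- two convolution sums -/
def conv (l : List ℕ) : List ℕ → ℕ → ℕ → ℕ → (ℕ → ℕ → Bool) → Bool :=
  List.rec (fun _ _ A0 A1 k => k A0 A1) (fun x _ ih as i A0 A1 k =>
    List.rec false (fun y as' _ => ih as' (Nat.succ i) (Nat.add A0 (Nat.mul y x))
      (Nat.add A1 (Nat.mul i (Nat.mul y x))) k) as) l

/-- main recursion -/
def nuLoop (a b : ℕ) (as : List ℕ) (fuel : ℕ) : ℕ → List ℕ → (List ℕ → Bool) → Bool :=
  Nat.rec (fun _ l k => k l) (fun _ ih m l k =>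
    conv l as 1 0 0 (fun A0 A1 =>
      Bool.rec false
        (ih (Nat.succ m) (List.cons (Nat.div (Nat.sub (Nat.mul (Nat.add a b) A1)
          (Nat.mul (Nat.mul b m) A0)) (Nat.mul b m)) l) k)
        (Nat.beq (Nat.add (Nat.mul (Nat.mul b m) (Nat.div (Nat.sub (Nat.mul (Nat.add a b) A1)
          (Nat.mul (Nat.mul b m) A0)) (Nat.mul b m))) (Nat.mul (Nat.mul b m) A0))
          (Nat.mul (Nat.add a b) A1)))) fuel

/-- inner sum -/
def sLoop (A b m j : ℕ) (f : ℕ) : ℕ → ℕ → ℕ → (ℕ → Bool) → Bool :=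
  Nat.rec (fun _ S _ k => k S) (fun f' ih i S P k =>
    ih (Nat.succ i) (Nat.add (Nat.mul S (Nat.mul (Nat.mul (Nat.mul 2 b) (Nat.succ i))
        (Nat.add (Nat.mul 2 (Nat.add j f')) 1)))
        (Nat.mul P (Nat.mul (Nat.mul 3 (Nat.succ f')) (Nat.add A (Nat.mul b
          (Nat.add (Nat.mul 6 m) (Nat.mul 2 i)))))))
      (Nat.mul P (Nat.mul (Nat.mul 3 (Nat.succ f')) (Nat.add A (Nat.mul b
          (Nat.add (Nat.mul 6 m) (Nat.mul 2 i)))))) k) f

/-- final alternating sum; the list is `[nu_N, ..., nu_0]` -/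
def finLoop (a b A : ℕ) (l : List ℕ) : ℕ → ℕ → ℕ → ℕ → ℕ → Bool :=
  List.rec (fun _ _ _ U V => Nat.blt U V) (fun x l' ih j p G U V =>
    sLoop A b (List.length l') j (Nat.mul 2 j) 0 1 1 (fun S =>
      Bool.rec false
        (ih (Nat.succ j) (Nat.mul p 2) (Nat.mul G (Nat.mul (Nat.succ j) (Nat.mul
            (Nat.succ (Nat.mul 2 j)) (Nat.succ (Nat.succ (Nat.mul 2 j))))))
          (Nat.add (Nat.mul V a) (Nat.mul x (Nat.div (Nat.mul S p) G))) (Nat.mul U a))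
        (Nat.beq (Nat.mul (Nat.div (Nat.mul S p) G) G) (Nat.mul S p)))) l

/-- the complete check -/
def checkAll (N a b A : ℕ) : Bool :=
  Bool.rec false (nuLoop a b (aList (4 * b) N 0 1) N 1 [1] (fun l => finLoop a b A l 0 1 1 0 0))
    (goodA (4 * b) (aList (4 * b) N 0 1) 0 1)

end Pool.Agent.H36Flow
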