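import Mathlib
import Pool.Agent.H36Flow.Compute

set_option autoImplicit false

/-!
The finite computation, done by the kernel.
-/

namespace Pool.Agent.H36Flow

set_option maxRecDepth 100000 in
theorem check_true : checkAll 440 769 128 513 = true := by decide +kernel

end Pool.Agent.H36Flow
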