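import Mathlib

set_option autoImplicit false

/-!
Formal Gaussian functional on multivariate polynomials, integration by parts, and the
recursive sum over all pairings of a list.
-/

namespace Pool.Agent.H36Flow

open MvPolynomial

/-- Moments of a one-variable centred Gaussian with variance `v`. -/
noncomputable def mom (v : ℝ) : ℕ → ℝ
  | 0 => 1
  | 1 => 0
  | (n + 2) => v * (n + 1) * mom v n

@[simp] lemma mom_zero (v : ℝ) : mom v 0 = 1 := rfl
@[simp] lemma mom_one (v : ℝ) : mom v 1 = 0 := rfl
lemma mom_add_two (v : ℝ) (n : ℕ) : mom v (n + 2) = v * (n + 1) * mom v n := rfl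

section functional

variable {ι : Type} [Fintype ι]

/-- The Gaussian functional with independent variables of variances `v i`. -/
noncomputable def E (v : ι → ℝ) : MvPolynomial ι ℝ →ₗ[ℝ] ℝ :=
  (MvPolynomial.basisMonomials ι ℝ).constr ℝ (fun s => ∏ i, mom (v i) (s i))

lemma E_monomial_one (v : ι → ℝ) (s : ι →₀ ℕ) :
    E v (monomial s 1) = ∏ i, mom (v i) (s i) := by
  have h := (MvPolynomial.basisMonomials ι ℝ).constr_basis ℝ
    (fun s : ι →₀ ℕ => ∏ i, mom (v i) (s i)) s
  simpa [E, MvPolynomial.coe_basisMonomials] using h

lemma E_monomial (v : ι → ℝ) (s : ι →₀ ℕ) (r : ℝ) :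
    E v (monomial s r) = r * ∏ i, mom (v i) (s i) := by
  have : (monomial s r : MvPolynomial ι ℝ) = r • monomial s 1 := by
    rw [MvPolynomial.smul_monomial, smul_eq_mul, mul_one]
  rw [this, map_smul, E_monomial_one, smul_eq_mul]

/-- Integration by parts. -/
lemma E_X_mul [DecidableEq ι] (v : ι → ℝ) (i : ι) (f : MvPolynomial ι ℝ) :
    E v (X i * f) = v i * E v (pderiv i f) := by
  induction f using MvPolynomial.induction_on' with
  | monomial s r =>
    rw [show (X i : MvPolynomial ι ℝ) = monomial (Finsupp.single i 1) 1 from rfl,
      MvPolynomial.monomial_mul, MvPolynomial.pderiv_monomial, E_monomial, E_monomial, one_mul]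
    rw [← Finset.mul_prod_erase Finset.univ _ (Finset.mem_univ i),
      ← Finset.mul_prod_erase Finset.univ (fun j => mom (v j) ((s - Finsupp.single i 1 : ι →₀ ℕ) j))
        (Finset.mem_univ i)]
    have h1 : ∏ x ∈ Finset.univ.erase i, mom (v x) ((Finsupp.single i 1 + s : ι →₀ ℕ) x) =
        ∏ x ∈ Finset.univ.erase i, mom (v x) ((s - Finsupp.single i 1 : ι →₀ ℕ) x) := by
      refine Finset.prod_congr rfl fun j hj => ?_
      have hji : j ≠ i := (Finset.mem_erase.mp hj).1
      simp [hji.symm]
    rw [h1]
    have h2 : mom (v i) ((Finsupp.single i 1 + s : ι →₀ ℕ) i) =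
        v i * (s i : ℝ) * mom (v i) ((s - Finsupp.single i 1 : ι →₀ ℕ) i) := by
      simp only [Finsupp.coe_add, Pi.add_apply, Finsupp.single_eq_same, Finsupp.coe_tsub,
        Pi.sub_apply]
      rcases hs : s i with _ | n
      · simp
      · rw [show 1 + (n + 1) = n + 2 by ring, mom_add_two]
        simp
    rw [h2]
    ring
  | add p q hp hq =>
    rw [mul_add, map_add, map_add, map_add, hp, hq]
    ring

end functional

/-- Derivation applied to the product of a list. -/
lemma derivation_list_prod {A : Type} [CommRing A] [Algebra ℝ A] (D : Derivation ℝ A A)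
    {β : Type} (f : β → A) (L : List β) :
    D ((L.map f).prod) = ∑ i : Fin L.length, D (f (L.get i)) * ((L.eraseIdx i).map f).prod := by
  induction L with
  | nil => simp
  | cons x L ih =>
    rw [List.map_cons, List.prod_cons, Derivation.leibniz, ih]
    simp only [List.length_cons, smul_eq_mul]
    rw [Fin.sum_univ_succ, Finset.mul_sum]
    simp only [List.get_eq_getElem, Fin.val_zero, List.getElem_cons_zero, List.eraseIdx_cons_zero,
      Fin.val_succ, List.getElem_cons_succ, List.eraseIdx_cons_succ, List.map_cons,
      List.prod_cons]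
    rw [add_comm]
    congr 1
    · ring
    · exact Finset.sum_congr rfl fun i _ => by ring

/-- The sum of `F` over all ways to pair up the members of a list (with fuel). -/
noncomputable def msum {α A : Type} [AddCommMonoid A] : ℕ → List α → (List (α × α) → A) → A
  | 0, _, F => F []
  | (_ + 1), [], F => F []
  | (n + 1), (a :: L), F =>
      ∑ i : Fin L.length, msum n (L.eraseIdx i) (fun m => F ((a, L.get i) :: m))

lemma msum_nonneg {α : Type} (n : ℕ) (L : List α) (F : List (α × α) → ℝ)
    (h : ∀ m, 0 ≤ F m) : 0 ≤ msum n L F := by
  induction n generalizing L F with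
  | zero => simpa [msum] using h []
  | succ n ih =>
    cases L with
    | nil => simpa [msum] using h []
    | cons a L =>
      rw [msum]
      exact Finset.sum_nonneg fun i _ => ih _ _ (fun m => h _)

lemma msum_sum {α β A : Type} [AddCommMonoid A] (s : Finset β) (n : ℕ) (L : List α)
    (F : β → List (α × α) → A) :
    msum n L (fun m => ∑ b ∈ s, F b m) = ∑ b ∈ s, msum n L (F b) := by
  induction n generalizing L F with
  | zero => simp [msum]
  | succ n ih =>
    cases L with
    | nil => simp [msum]
    | cons a L =>
      simp only [msum]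
      rw [Finset.sum_comm]
      refine Finset.sum_congr rfl fun i _ => ?_
      exact ih _ (fun b m => F b ((a, L.get i) :: m))

lemma msum_map {α A B : Type} [AddCommMonoid A] [AddCommMonoid B] (φ : A →+ B) (n : ℕ)
    (L : List α) (F : List (α × α) → A) :
    φ (msum n L F) = msum n L (fun m => φ (F m)) := by
  induction n generalizing L F with
  | zero => simp [msum]
  | succ n ih =>
    cases L with
    | nil => simp [msum]
    | cons a L =>
      simp only [msum]
      rw [map_sum]
      refine Finset.sum_congr rfl fun i _ => ?_
      exact ih _ (fun m => F ((a, L.get i) :: m))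

lemma msum_const_mul {α : Type} (n : ℕ) (L : List α) (c : ℝ) (F : List (α × α) → ℝ) :
    msum n L (fun m => c * F m) = c * msum n L F :=
  (msum_map (AddMonoidHom.mulLeft c) n L F).symm

/-- Wick formula: the sum over pairings of products of a covariance. -/
lemma msum_eq_E {α ι : Type} [Fintype ι] [DecidableEq ι] (v : ι → ℝ)
    (phi : α → MvPolynomial ι ℝ) (D : α → Derivation ℝ (MvPolynomial ι ℝ) (MvPolynomial ι ℝ))
    (K : α → α → ℝ) (hE : ∀ a f, E v (phi a * f) = E v (D a f))
    (hD : ∀ a b, D a (phi b) = C (K a b)) (n : ℕ) (L : List α) (hL : L.length = 2 * n) :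
    msum n L (fun m => (m.map fun e => K e.1 e.2).prod) = E v ((L.map phi).prod) := by
  induction n generalizing L with
  | zero =>
    have : L = [] := by simpa using hL
    subst this
    have h1 : E v (1 : MvPolynomial ι ℝ) = 1 := by
      have := E_monomial v 0 1
      simpa using this
    simp [msum, h1]
  | succ n ih =>
    cases L with
    | nil => simp at hL
    | cons a L =>
      simp only [msum, List.map_cons, List.prod_cons]
      rw [hE, derivation_list_prod, map_sum]
      refine Finset.sum_congr rfl fun i _ => ?_
      rw [msum_const_mul, ih]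
      · rw [hD, ← MvPolynomial.smul_eq_C_mul, map_smul, smul_eq_mul]
      · have : L.length = 2 * n + 1 := by
          simp only [List.length_cons] at hL
          omega
        rw [List.length_eraseIdx]
        have := i.isLt
        split_ifs
        omega

end Pool.Agent.H36Flow
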