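import Mathlib
import Pool.Agent.H36Flow.Gauss

set_option autoImplicit false

/-!
The flow polynomial of a simple graph at natural numbers, as a colouring sum.
-/

namespace Pool.Agent.H36Flow

open Finset SimpleGraph

open scoped Classical in
/-- indicator that a colouring is constant along an edge -/
noncomputable def dl {W : Type} {k : ℕ} (τ : W → Fin k) (e : Sym2 W) : ℝ :=
  if (e.map τ).IsDiag then 1 else 0

lemma dl_mk {W : Type} {k : ℕ} (τ : W → Fin k) (u v : W) :
    dl τ s(u, v) = if τ u = τ v then 1 else 0 := by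
  classical
  simp only [dl, Sym2.map_mk, Sym2.mk_isDiag_iff]

section

variable {W : Type}

lemma const_of_reachable {k : Type} (A : Set (Sym2 W)) (τ : W → k)
    (h : ∀ e ∈ A, (e.map τ).IsDiag) (u v : W) (huv : (fromEdgeSet A).Reachable u v) :
    τ u = τ v := by
  obtain ⟨p⟩ := huv
  induction p with
  | nil => rfl
  | cons hadj _ ih =>
    rw [← ih]
    rw [fromEdgeSet_adj] at hadj
    have := h _ hadj.1
    simpa using this

/-- colourings constant along `A` are colourings of the connected components -/
noncomputable def colEquiv {k : Type} (A : Set (Sym2 W)) :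
    ((fromEdgeSet A).ConnectedComponent → k) ≃ {τ : W → k // ∀ e ∈ A, (e.map τ).IsDiag} := by
  refine Equiv.ofBijective (fun f => ⟨fun w => f ((fromEdgeSet A).connectedComponentMk w), ?_⟩)
    ⟨?_, ?_⟩
  · intro e he
    induction e using Sym2.ind with
    | _ u v =>
      simp only [Sym2.map_mk, Sym2.mk_isDiag_iff]
      by_cases huv : u = v
      · rw [huv]
      · congr 1
        apply ConnectedComponent.connectedComponentMk_eq_of_adj
        rw [fromEdgeSet_adj]
        exact ⟨he, huv⟩
  · intro f g hfg
    funext C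
    induction C using ConnectedComponent.ind with
    | _ w =>
      have := congrArg (fun t => t.1 w) hfg
      simpa using this
  · rintro ⟨τ, hτ⟩
    refine ⟨fun C => C.lift τ (fun u v p _ => const_of_reachable A τ hτ u v ⟨p⟩), ?_⟩
    ext w
    rfl

variable [Fintype W]

lemma card_const (k : ℕ) (A : Set (Sym2 W)) :
    Nat.card {τ : W → Fin k // ∀ e ∈ A, (e.map τ).IsDiag} =
      k ^ Nat.card (fromEdgeSet A).ConnectedComponent := by
  rw [← Nat.card_congr (colEquiv A), Nat.card_fun, Nat.card_eq_fintype_card (α := Fin k),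
    Fintype.card_fin]

variable [DecidableEq W]

/-- coboundary map mod 2 -/
noncomputable def cob (A : Finset (Sym2 W)) : (W → ZMod 2) →ₗ[ZMod 2] (A → ZMod 2) where
  toFun τ e := Sym2.lift ⟨fun u v => τ u + τ v, fun u v => add_comm _ _⟩ e.1
  map_add' x y := by
    funext e
    obtain ⟨e, he⟩ := e
    induction e using Sym2.ind with
    | _ u v =>
      simp only [Sym2.lift_mk, Pi.add_apply]
      ring
  map_smul' r x := by
    funext e
    obtain ⟨e, he⟩ := e
    induction e using Sym2.ind with
    | _ u v =>
      simp only [Sym2.lift_mk, Pi.smul_apply, smul_eq_mul, RingHom.id_apply]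
      ring

lemma card_le (A : Finset (Sym2 W)) : Fintype.card W ≤
    A.card + Nat.card (fromEdgeSet (A : Set (Sym2 W))).ConnectedComponent := by
  have h1 : Nat.card (LinearMap.ker (cob A)) =
      2 ^ Nat.card (fromEdgeSet (A : Set (Sym2 W))).ConnectedComponent := by
    have h2 : Nat.card {τ : W → ZMod 2 // ∀ e ∈ (A : Set (Sym2 W)), (e.map τ).IsDiag} =
        2 ^ Nat.card (fromEdgeSet (A : Set (Sym2 W))).ConnectedComponent := by
      rw [← Nat.card_congr (colEquiv (A : Set (Sym2 W))), Nat.card_fun,
        Nat.card_eq_fintype_card (α := ZMod 2), ZMod.card]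
    rw [← h2]
    refine Nat.card_congr (Equiv.subtypeEquivRight fun τ => ?_)
    rw [LinearMap.mem_ker]
    constructor
    · intro h e he
      have h3 := congrFun h ⟨e, he⟩
      induction e using Sym2.ind with
      | _ u v =>
        simp only [cob, LinearMap.coe_mk, AddHom.coe_mk, Sym2.lift_mk, Pi.zero_apply] at h3
        simp only [Sym2.map_mk, Sym2.mk_isDiag_iff]
        exact (CharTwo.add_eq_zero).mp h3
    · intro h
      funext e
      obtain ⟨e, he⟩ := e
      have h3 := h e he
      induction e using Sym2.ind with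
      | _ u v =>
        simp only [cob, LinearMap.coe_mk, AddHom.coe_mk, Sym2.lift_mk, Pi.zero_apply]
        simp only [Sym2.map_mk, Sym2.mk_isDiag_iff] at h3
        exact (CharTwo.add_eq_zero).mpr h3
  have h3 : Nat.card (LinearMap.ker (cob A)) =
      2 ^ Module.finrank (ZMod 2) (LinearMap.ker (cob A)) := by
    rw [Module.natCard_eq_pow_finrank (K := ZMod 2), Nat.card_eq_fintype_card (α := ZMod 2),
      ZMod.card]
  have h4 : Nat.card (fromEdgeSet (A : Set (Sym2 W))).ConnectedComponent =
      Module.finrank (ZMod 2) (LinearMap.ker (cob A)) := by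
    rw [h1] at h3
    exact Nat.pow_right_injective le_rfl h3
  have h5 := LinearMap.finrank_range_add_finrank_ker (cob A)
  have h6 : Module.finrank (ZMod 2) (LinearMap.range (cob A)) ≤ A.card := by
    refine (Submodule.finrank_le _).trans ?_
    rw [Module.finrank_fintype_fun_eq_card]
    simp
  rw [Module.finrank_fintype_fun_eq_card] at h5
  omega

/-- The flow polynomial, as in the frozen statement, for a given finite set of edges. -/
noncomputable def fpoly (Es : Finset (Sym2 W)) : Polynomial ℝ :=
  ∑ A ∈ Es.powerset, (-1 : Polynomial ℝ) ^ (Es.card - A.card) *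
    Polynomial.X ^ (A.card + Nat.card (fromEdgeSet (A : Set (Sym2 W))).ConnectedComponent
      - Fintype.card W)

lemma sum_dl (k : ℕ) (A : Finset (Sym2 W)) :
    ∑ τ : W → Fin k, ∏ e ∈ A, dl τ e =
      (k : ℝ) ^ Nat.card (fromEdgeSet (A : Set (Sym2 W))).ConnectedComponent := by
  classical
  have h1 : ∀ τ : W → Fin k, ∏ e ∈ A, dl τ e =
      if ∀ e ∈ (A : Set (Sym2 W)), (e.map τ).IsDiag then 1 else 0 := by
    intro τ
    split_ifs with h
    · refine prod_eq_one fun e he => ?_
      rw [dl, if_pos (h e he)]
    · push Not at h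
      obtain ⟨e, he, h⟩ := h
      refine prod_eq_zero he ?_
      rw [dl, if_neg h]
  rw [sum_congr rfl fun τ _ => h1 τ, sum_boole, ← Nat.cast_pow, ← card_const k,
    Nat.card_eq_fintype_card, Fintype.card_subtype]

lemma fpoly_eval (Es : Finset (Sym2 W)) (k : ℕ) :
    (k : ℝ) ^ Fintype.card W * (fpoly Es).eval (k : ℝ) =
      ∑ τ : W → Fin k, ∏ e ∈ Es, ((k : ℝ) * dl τ e - 1) := by
  have h1 : ∀ τ : W → Fin k, ∏ e ∈ Es, ((k : ℝ) * dl τ e - 1) =
      ∑ A ∈ Es.powerset, (k : ℝ) ^ A.card * (∏ e ∈ A, dl τ e) * (-1) ^ (Es.card - A.card) := by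
    intro τ
    simp only [sub_eq_add_neg]
    rw [prod_add]
    refine sum_congr rfl fun A hA => ?_
    rw [prod_mul_distrib, prod_const, prod_const, card_sdiff_of_subset (mem_powerset.mp hA)]
  rw [sum_congr rfl fun τ _ => h1 τ, sum_comm, fpoly, Polynomial.eval_finsetSum, mul_sum]
  refine sum_congr rfl fun A _ => ?_
  rw [← sum_mul, ← mul_sum, sum_dl]
  simp only [Polynomial.eval_mul, Polynomial.eval_pow, Polynomial.eval_neg, Polynomial.eval_one,
    Polynomial.eval_X]
  have h2 := card_le A
  have h3 : (k : ℝ) ^ Fintype.card W * (k : ℝ) ^ (A.card +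
      Nat.card (fromEdgeSet (A : Set (Sym2 W))).ConnectedComponent - Fintype.card W) =
      (k : ℝ) ^ A.card * (k : ℝ) ^
        Nat.card (fromEdgeSet (A : Set (Sym2 W))).ConnectedComponent := by
    rw [← pow_add, ← pow_add]
    congr 1
    omega
  rw [mul_left_comm, h3]
  ring

end

end Pool.Agent.H36Flow
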