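import Mathlib
import Pool.Agent.H36Flow.Graph

set_option autoImplicit false

/-!
The subdivided graph of a list of pairs, its flow polynomial at natural numbers and positivity.
-/

namespace Pool.Agent.H36Flow

open Finset SimpleGraph

/-- covariance kernel -/
noncomputable def KK {k : ℕ} (a b : Fin k) : ℝ := (k : ℝ) * (if a = b then 1 else 0) - 1

lemma KK_mul {k : ℕ} (a b : Fin k) : ∑ x : Fin k, KK a x * KK x b = k * KK a b := by
  simp only [KK]
  have h : ∀ x : Fin k, ((k : ℝ) * (if a = x then 1 else 0) - 1) *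
      ((k : ℝ) * (if x = b then 1 else 0) - 1) =
      (k : ℝ) ^ 2 * (if a = x then (if x = b then 1 else 0) else 0) -
      k * (if a = x then 1 else 0) - k * (if x = b then 1 else 0) + 1 := by
    intro x
    split_ifs <;> ring
  rw [sum_congr rfl fun x _ => h x]
  simp only [sum_add_distrib, sum_sub_distrib, ← mul_sum, sum_ite_eq, sum_ite_eq', mem_univ,
    if_true, sum_const, card_univ, Fintype.card_fin, nsmul_eq_mul]
  ring

section

variable {n : ℕ} (m : List (Fin n × Fin n))

/-- vertices of the subdivided graph -/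
abbrev WW : Type := Fin n ⊕ (Fin m.length × Bool)

/-- edges of the subdivided graph -/
def ed : Fin m.length × Fin 3 → Sym2 (WW m)
  | (e, 0) => s(Sum.inl (m.get e).1, Sum.inr (e, false))
  | (e, 1) => s(Sum.inr (e, false), Sum.inr (e, true))
  | (e, 2) => s(Sum.inr (e, true), Sum.inl (m.get e).2)

lemma ed_injective : Function.Injective (ed m) := by
  rintro ⟨e, i⟩ ⟨f, j⟩ h
  fin_cases i <;> fin_cases j <;> simp [ed] at h ⊢ <;> first | exact h.2 | exact h.1 | exact h

lemma ed_not_diag (x : Fin m.length × Fin 3) : ¬ (ed m x).IsDiag := by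
  obtain ⟨e, i⟩ := x
  fin_cases i <;> simp [ed]

/-- the set of edges -/
def Es : Finset (Sym2 (WW m)) := univ.image (ed m)

lemma prod_Es (f : Sym2 (WW m) → ℝ) :
    ∏ e ∈ Es m, f e = ∏ i : Fin m.length, (f (ed m (i, 0)) * f (ed m (i, 1)) * f (ed m (i, 2))) := by
  rw [Es, prod_image (fun x _ y _ h => ed_injective m h), Fintype.prod_prod_type]
  refine prod_congr rfl fun i _ => ?_
  rw [Fin.prod_univ_three]

lemma kdl_mk {k : ℕ} (τ : WW m → Fin k) (u v : WW m) :
    (k : ℝ) * dl τ s(u, v) - 1 = KK (τ u) (τ v) := by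
  rw [dl_mk, KK]

lemma sum_prod_Es (k : ℕ) :
    ∑ τ : WW m → Fin k, ∏ e ∈ Es m, ((k : ℝ) * dl τ e - 1) =
      (k : ℝ) ^ (2 * m.length) *
        ∑ σ : Fin n → Fin k, ∏ i : Fin m.length, KK (σ (m.get i).1) (σ (m.get i).2) := by
  simp only [prod_Es, ed, kdl_mk]
  rw [← Equiv.sum_comp (Equiv.sumArrowEquivProdArrow _ _ _).symm]
  rw [Fintype.sum_prod_type, mul_sum]
  refine sum_congr rfl fun σ _ => ?_
  rw [← Equiv.sum_comp (Equiv.curry (Fin m.length) Bool (Fin k)).symm]
  have h1 : ∀ ρ : Fin m.length → Bool → Fin k, ∏ i : Fin m.length,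
      (KK ((Equiv.sumArrowEquivProdArrow (Fin n) (Fin m.length × Bool) (Fin k)).symm
        (σ, (Equiv.curry (Fin m.length) Bool (Fin k)).symm ρ) (Sum.inl (m.get i).1))
        ((Equiv.sumArrowEquivProdArrow (Fin n) (Fin m.length × Bool) (Fin k)).symm
        (σ, (Equiv.curry (Fin m.length) Bool (Fin k)).symm ρ) (Sum.inr (i, false))) *
       KK ((Equiv.sumArrowEquivProdArrow (Fin n) (Fin m.length × Bool) (Fin k)).symm
        (σ, (Equiv.curry (Fin m.length) Bool (Fin k)).symm ρ) (Sum.inr (i, false)))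
        ((Equiv.sumArrowEquivProdArrow (Fin n) (Fin m.length × Bool) (Fin k)).symm
        (σ, (Equiv.curry (Fin m.length) Bool (Fin k)).symm ρ) (Sum.inr (i, true))) *
       KK ((Equiv.sumArrowEquivProdArrow (Fin n) (Fin m.length × Bool) (Fin k)).symm
        (σ, (Equiv.curry (Fin m.length) Bool (Fin k)).symm ρ) (Sum.inr (i, true)))
        ((Equiv.sumArrowEquivProdArrow (Fin n) (Fin m.length × Bool) (Fin k)).symm
        (σ, (Equiv.curry (Fin m.length) Bool (Fin k)).symm ρ) (Sum.inl (m.get i).2))) =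
      ∏ i : Fin m.length, (KK (σ (m.get i).1) (ρ i false) * KK (ρ i false) (ρ i true) *
        KK (ρ i true) (σ (m.get i).2)) := by
    intro ρ
    rfl
  rw [sum_congr rfl fun ρ _ => h1 ρ]
  have h2 := (Finset.prod_univ_sum (fun _ : Fin m.length => (univ : Finset (Bool → Fin k)))
    (fun i b => KK (σ (m.get i).1) (b false) * KK (b false) (b true) *
        KK (b true) (σ (m.get i).2)))
  rw [Fintype.piFinset_univ] at h2
  rw [← h2]
  have h3 : ∀ i : Fin m.length, ∑ b : Bool → Fin k, (KK (σ (m.get i).1) (b false) *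
      KK (b false) (b true) * KK (b true) (σ (m.get i).2)) =
      (k : ℝ) ^ 2 * KK (σ (m.get i).1) (σ (m.get i).2) := by
    intro i
    rw [← Equiv.sum_comp (Equiv.boolArrowEquivProd (Fin k)).symm, Fintype.sum_prod_type]
    have h4 : ∀ x y : Fin k, (KK (σ (m.get i).1)
        ((Equiv.boolArrowEquivProd (Fin k)).symm (x, y) false) *
        KK ((Equiv.boolArrowEquivProd (Fin k)).symm (x, y) false)
        ((Equiv.boolArrowEquivProd (Fin k)).symm (x, y) true) *
        KK ((Equiv.boolArrowEquivProd (Fin k)).symm (x, y) true) (σ (m.get i).2)) =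
        KK (σ (m.get i).1) x * (KK x y * KK y (σ (m.get i).2)) := by
      intro x y
      rw [← mul_assoc]
      rfl
    rw [sum_congr rfl fun x _ => sum_congr rfl fun y _ => h4 x y]
    simp only [← mul_sum, KK_mul]
    rw [show ∑ x : Fin k, KK (σ (m.get i).1) x * ((k : ℝ) * KK x (σ (m.get i).2)) =
      (k : ℝ) * ∑ x : Fin k, KK (σ (m.get i).1) x * KK x (σ (m.get i).2) from by
        rw [mul_sum]; exact sum_congr rfl fun x _ => by ring]
    rw [KK_mul]
    ring
  rw [prod_congr rfl fun i _ => h3 i, prod_mul_distrib, prod_const, card_univ,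
    Fintype.card_fin, pow_mul]

lemma card_WW : Fintype.card (WW m) = n + 2 * m.length := by
  simp [mul_comm]

lemma fpoly_Es_eval (k : ℕ) (hk : 0 < k) :
    (k : ℝ) ^ n * (fpoly (Es m)).eval (k : ℝ) =
      ∑ σ : Fin n → Fin k, (m.map fun e => KK (σ e.1) (σ e.2)).prod := by
  have h := fpoly_eval (Es m) k
  rw [sum_prod_Es, card_WW, pow_add] at h
  have hk' : (k : ℝ) ^ (2 * m.length) ≠ 0 := by positivity
  have h2 : (k : ℝ) ^ n * (fpoly (Es m)).eval (k : ℝ) =
      ∑ σ : Fin n → Fin k, ∏ i : Fin m.length, KK (σ (m.get i).1) (σ (m.get i).2) := by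
    apply mul_left_cancel₀ hk'
    rw [← h]
    ring
  rw [h2]
  refine sum_congr rfl fun σ _ => ?_
  rw [← Fin.prod_univ_fun_getElem]
  rfl

lemma char_sum {ι : Type} (s : Finset ι) (f : ι → ZMod 7) :
    (ZMod.stdAddChar (N := 7) (∑ i ∈ s, f i) : ℂ) = ∏ i ∈ s, ZMod.stdAddChar (N := 7) (f i) := by
  classical
  induction s using Finset.induction_on with
  | empty => simp
  | insert a s ha ih => rw [sum_insert ha, prod_insert ha, AddChar.map_add_eq_mul, ih]

lemma KK_eq_char (x y : ZMod 7) :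
    ((KK (k := 7) x y : ℝ) : ℂ) =
      ∑ a ∈ (univ : Finset (ZMod 7)).erase 0, ZMod.stdAddChar (a * (x - y)) := by
  have h := AddChar.sum_mulShift (x - y) (ZMod.isPrimitive_stdAddChar 7)
  rw [← Finset.add_sum_erase _ _ (mem_univ (0 : ZMod 7))] at h
  rw [zero_mul, AddChar.map_zero_eq_one] at h
  have h2 : ∑ a ∈ (univ : Finset (ZMod 7)).erase 0, ZMod.stdAddChar (a * (x - y)) =
      ((if x - y = 0 then Fintype.card (ZMod 7) else 0 : ℕ) : ℂ) - 1 := by
    rw [← h]
    ring
  rw [h2, KK]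
  by_cases hxy : x = y
  · simp [hxy]
  · have : x - y ≠ 0 := sub_ne_zero.mpr hxy
    simp [this]
    exact hxy

lemma pos_seven :
    0 ≤ ∑ σ : Fin n → Fin 7, ∏ i : Fin m.length, KK (σ (m.get i).1) (σ (m.get i).2) := by
  classical
  let T : Finset (Fin m.length → ZMod 7) :=
    Fintype.piFinset fun _ => (univ : Finset (ZMod 7)).erase 0
  let bb : (Fin m.length → ZMod 7) → Fin n → ZMod 7 := fun α v =>
    ∑ i : Fin m.length, α i * ((if (m.get i).1 = v then 1 else 0) -
      (if (m.get i).2 = v then 1 else 0))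
  have key : ((∑ σ : Fin n → Fin 7, ∏ i : Fin m.length,
      KK (σ (m.get i).1) (σ (m.get i).2) : ℝ) : ℂ) =
      ((∑ α ∈ T, ∏ v : Fin n, (if bb α v = 0 then (7 : ℝ) else 0) : ℝ) : ℂ) := by
    have h1 : ∀ σ : Fin n → ZMod 7, ((∏ i : Fin m.length,
        KK (k := 7) (σ (m.get i).1) (σ (m.get i).2) : ℝ) : ℂ) =
        ∑ α ∈ T, ∏ v : Fin n, ZMod.stdAddChar (σ v * bb α v) := by
      intro σ
      rw [Complex.ofReal_prod]
      rw [prod_congr rfl fun i _ => KK_eq_char (σ (m.get i).1) (σ (m.get i).2)]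
      rw [Finset.prod_univ_sum]
      refine sum_congr rfl fun α _ => ?_
      have e1 : ∏ i : Fin m.length, ZMod.stdAddChar (N := 7)
          (α i * (σ (m.get i).1 - σ (m.get i).2)) = ZMod.stdAddChar (N := 7)
          (∑ i : Fin m.length, α i * (σ (m.get i).1 - σ (m.get i).2)) := by
        rw [char_sum]
      have e2 : ∏ v : Fin n, ZMod.stdAddChar (N := 7) (σ v * bb α v) = ZMod.stdAddChar (N := 7)
          (∑ v : Fin n, σ v * bb α v) := by
        rw [char_sum]
      rw [e1, e2]
      congr 1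
      simp only [bb, mul_sum]
      rw [sum_comm]
      refine sum_congr rfl fun i _ => ?_
      have e3 : ∀ v : Fin n, σ v * (α i * ((if (m.get i).1 = v then 1 else 0) -
          (if (m.get i).2 = v then 1 else 0))) =
          (if (m.get i).1 = v then α i * σ v else 0) -
          (if (m.get i).2 = v then α i * σ v else 0) := by
        intro v
        split_ifs <;> ring
      rw [sum_congr rfl fun v _ => e3 v, sum_sub_distrib, sum_ite_eq, sum_ite_eq]
      simp only [mem_univ, if_true]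
      ring
    have h2 : ((∑ σ : Fin n → Fin 7, ∏ i : Fin m.length,
        KK (σ (m.get i).1) (σ (m.get i).2) : ℝ) : ℂ) =
        ∑ σ : Fin n → ZMod 7, ∑ α ∈ T, ∏ v : Fin n, ZMod.stdAddChar (σ v * bb α v) := by
      rw [Complex.ofReal_sum]
      exact sum_congr rfl fun σ _ => h1 σ
    rw [h2, sum_comm, Complex.ofReal_sum]
    refine sum_congr rfl fun α _ => ?_
    have h3 := (Finset.prod_univ_sum (fun _ : Fin n => (univ : Finset (ZMod 7)))
      (fun v x => (ZMod.stdAddChar (x * bb α v) : ℂ)))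
    rw [Fintype.piFinset_univ] at h3
    rw [← h3, Complex.ofReal_prod]
    refine prod_congr rfl fun v _ => ?_
    rw [AddChar.sum_mulShift _ (ZMod.isPrimitive_stdAddChar 7)]
    split_ifs
    · simp
    · simp
  have key2 := Complex.ofReal_injective key
  rw [key2]
  refine sum_nonneg fun α _ => prod_nonneg fun v _ => ?_
  split_ifs <;> norm_num

lemma fpoly_seven : 0 ≤ (fpoly (Es m)).eval (7 : ℝ) := by
  have h := fpoly_Es_eval m 7 (by norm_num)
  have h2 := pos_seven m
  have h3 : ∑ σ : Fin n → Fin 7, ∏ i : Fin m.length, KK (σ (m.get i).1) (σ (m.get i).2) =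
      ∑ σ : Fin n → Fin 7, (m.map fun e => KK (σ e.1) (σ e.2)).prod := by
    refine sum_congr rfl fun σ _ => ?_
    rw [← Fin.prod_univ_fun_getElem]
    rfl
  rw [← h3] at h
  rw [← h] at h2
  have h4 : (0 : ℝ) < ((7 : ℕ) : ℝ) ^ n := by positivity
  have h5 := nonneg_of_mul_nonneg_right h2 h4
  simpa using h5

end

end Pool.Agent.H36Flow
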