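import Mathlib
import Pool.Agent.H36Flow.Gauss

set_option autoImplicit false

/-!
The change of variables identity for the cubic interaction with the zero mode removed.
-/

namespace Pool.Agent.H36Flow

open MvPolynomial

section

variable (k : ℕ)

/-- variances: `k` for the `z` variables, `-1` for the variable `c`. -/
noncomputable def vv : Option (Fin k) → ℝ
  | none => -1
  | some _ => k

noncomputable abbrev zz (a : Fin k) : MvPolynomial (Option (Fin k)) ℝ := X (some a)
noncomputable abbrev cc : MvPolynomial (Option (Fin k)) ℝ := X none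
noncomputable def p1 : MvPolynomial (Option (Fin k)) ℝ := ∑ a : Fin k, zz k a
noncomputable def p2 : MvPolynomial (Option (Fin k)) ℝ := ∑ a : Fin k, zz k a ^ 2
noncomputable def p3 : MvPolynomial (Option (Fin k)) ℝ := ∑ a : Fin k, zz k a ^ 3
noncomputable def nu : MvPolynomial (Option (Fin k)) ℝ := p1 k + C (k : ℝ) * cc k
noncomputable def PP : MvPolynomial (Option (Fin k)) ℝ :=
  p3 k + 3 * cc k * p2 k - 2 * C (k : ℝ) * cc k ^ 3
noncomputable def QQ : MvPolynomial (Option (Fin k)) ℝ := ∑ a : Fin k, (zz k a + cc k) ^ 3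

noncomputable abbrev EE : MvPolynomial (Option (Fin k)) ℝ →ₗ[ℝ] ℝ := E (vv k)

lemma EE_z (a : Fin k) (f : MvPolynomial (Option (Fin k)) ℝ) :
    EE k (zz k a * f) = k * EE k (pderiv (some a) f) := E_X_mul (vv k) (some a) f

lemma EE_c (f : MvPolynomial (Option (Fin k)) ℝ) :
    EE k (cc k * f) = - EE k (pderiv none f) := by
  have := E_X_mul (vv k) none f
  simpa [vv] using this

/-- the derivation attached to the null variable -/
noncomputable def DD : Derivation ℝ (MvPolynomial (Option (Fin k)) ℝ)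
    (MvPolynomial (Option (Fin k)) ℝ) :=
  (∑ a : Fin k, pderiv (some a)) - pderiv none

lemma DD_apply (f : MvPolynomial (Option (Fin k)) ℝ) :
    DD k f = (∑ a : Fin k, pderiv (some a) f) - pderiv none f := by
  rw [DD, Derivation.sub_apply, ← Derivation.coeFnAddMonoidHom_apply, map_sum,
    Finset.sum_apply]
  rfl

lemma EE_nu (f : MvPolynomial (Option (Fin k)) ℝ) :
    EE k (nu k * f) = k * EE k (DD k f) := by
  rw [DD_apply, nu, p1, add_mul, Finset.sum_mul, map_add, map_sum, map_sub, map_sum, mul_sub,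
    Finset.mul_sum, mul_assoc, ← MvPolynomial.smul_eq_C_mul, map_smul, EE_c, smul_eq_mul]
  simp only [EE_z]
  ring

lemma DD_c : DD k (cc k) = -1 := by
  rw [DD_apply]
  simp [pderiv_X]

lemma DD_p1 : DD k (p1 k) = C (k : ℝ) := by
  rw [DD_apply]
  simp only [p1, map_sum, pderiv_X]
  simp [Pi.single_apply]

lemma DD_nu : DD k (nu k) = 0 := by
  rw [nu, map_add, DD_p1, Derivation.leibniz, DD_c]
  simp only [smul_eq_mul]
  have : DD k (C (k : ℝ)) = 0 := by
    have := (DD k).map_algebraMap (k : ℝ)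
    simpa [MvPolynomial.algebraMap_eq] using this
  rw [this]
  ring

lemma DD_p2 : DD k (p2 k) = 2 * p1 k := by
  rw [DD_apply]
  simp only [p2, p1, map_sum, pderiv_X, Derivation.leibniz_pow]
  simp [Pi.single_apply, Finset.mul_sum]

lemma DD_p3 : DD k (p3 k) = 3 * p2 k := by
  rw [DD_apply]
  simp only [p3, p2, map_sum, pderiv_X, Derivation.leibniz_pow]
  simp [Pi.single_apply, Finset.mul_sum]

lemma DD_PP : DD k (PP k) = 6 * cc k * nu k := by
  have hC : DD k (C (k : ℝ)) = 0 := by
    have := (DD k).map_algebraMap (k : ℝ)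
    simpa [MvPolynomial.algebraMap_eq] using this
  have h2 : DD k (2 : MvPolynomial (Option (Fin k)) ℝ) = 0 := by
    have := (DD k).map_natCast 2
    simpa using this
  have h3 : DD k (3 : MvPolynomial (Option (Fin k)) ℝ) = 0 := by
    have := (DD k).map_natCast 3
    simpa using this
  rw [PP, map_sub, map_add, DD_p3]
  simp only [Derivation.leibniz, Derivation.leibniz_pow, DD_c, DD_p2, hC, h2, h3, smul_eq_mul]
  simp only [nu]
  simp
  ring

lemma QQ_eq : QQ k = PP k + 3 * cc k ^ 2 * nu k := by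
  have h : QQ k = p3 k + 3 * cc k * p2 k + 3 * cc k ^ 2 * p1 k + C (k : ℝ) * cc k ^ 3 := by
    have hk : (C (k : ℝ) : MvPolynomial (Option (Fin k)) ℝ) * cc k ^ 3
        = ∑ a : Fin k, cc k ^ 3 := by
      simp
    rw [hk, QQ, p3, p2, p1, Finset.mul_sum, Finset.mul_sum, ← Finset.sum_add_distrib,
      ← Finset.sum_add_distrib, ← Finset.sum_add_distrib]
    refine Finset.sum_congr rfl fun a _ => ?_
    ring
  rw [h, PP, nu]
  ring

lemma rel (e i j : ℕ) : EE k (cc k ^ e * nu k ^ (i + 1) * PP k ^ j) =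
    k * (-(e : ℝ) * EE k (cc k ^ (e - 1) * nu k ^ i * PP k ^ j)
      + 6 * j * EE k (cc k ^ (e + 1) * nu k ^ (i + 1) * PP k ^ (j - 1))) := by
  have h0 : cc k ^ e * nu k ^ (i + 1) * PP k ^ j = nu k * (cc k ^ e * nu k ^ i * PP k ^ j) := by
    ring
  rw [h0, EE_nu]
  congr 1
  have h1 : DD k (cc k ^ e * nu k ^ i * PP k ^ j) =
      (-(e : ℝ)) • (cc k ^ (e - 1) * nu k ^ i * PP k ^ j) +
        (6 * (j : ℝ)) • (cc k ^ (e + 1) * nu k ^ (i + 1) * PP k ^ (j - 1)) := by
    simp only [Derivation.leibniz, Derivation.leibniz_pow, DD_c, DD_nu, DD_PP, smul_eq_mul]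
    simp only [nsmul_eq_mul, MvPolynomial.smul_eq_C_mul, map_neg, map_mul, map_natCast, map_ofNat]
    ring
  rw [h1, map_add, map_smul, map_smul, smul_eq_mul, smul_eq_mul]

/-- Main change of variables identity. -/
lemma main_ident (n : ℕ) : EE k (QQ k ^ (n + 1)) =
    EE k (PP k ^ (n + 1)) - 6 * k * (n + 1) * EE k (cc k * PP k ^ n) := by
  let w : ℕ → ℝ := fun i => 6 * k * (n + 1) * (n.choose i) * 3 ^ i *
    EE k (cc k ^ (2 * i + 1) * nu k ^ i * PP k ^ (n - i))
  let u : ℕ → ℝ := fun i => ((n + 1).choose i) * 3 ^ i *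
    EE k (cc k ^ (2 * i) * nu k ^ i * PP k ^ (n + 1 - i))
  have hsum : EE k (QQ k ^ (n + 1)) = ∑ i ∈ Finset.range (n + 2), u i := by
    rw [QQ_eq, add_comm, add_pow, map_sum]
    refine Finset.sum_congr rfl fun i _ => ?_
    have : (3 * cc k ^ 2 * nu k) ^ i * PP k ^ (n + 1 - i) * ((n + 1).choose i : ℕ) =
        ((((n + 1).choose i : ℕ) : ℝ) * 3 ^ i) •
          (cc k ^ (2 * i) * nu k ^ i * PP k ^ (n + 1 - i)) := by
      simp only [MvPolynomial.smul_eq_C_mul, map_mul, map_natCast, map_pow, map_ofNat]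
      ring
    rw [this, map_smul, smul_eq_mul]
  have hstep : ∀ i, u (i + 1) = w (i + 1) - w i := by
    intro i
    simp only [u, w]
    rw [rel]
    have e1 : n + 1 - (i + 1) = n - i := by omega
    have e2 : 2 * (i + 1) - 1 = 2 * i + 1 := by omega
    rw [e1, e2]
    rcases Nat.lt_or_ge i n with hi | hi
    · have e3 : n - (i + 1) = n - i - 1 := by omega
      rw [e3]
      have c1 : ((n + 1).choose (i + 1) : ℝ) * (i + 1) = (n + 1) * (n.choose i : ℝ) := by
        have := Nat.add_one_mul_choose_eq n i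
        have h := congrArg (Nat.cast : ℕ → ℝ) this
        push_cast at h
        linarith
      have c2 : ((n + 1).choose (i + 1) : ℝ) * ((n - i : ℕ) : ℝ)
          = (n + 1) * (n.choose (i + 1) : ℝ) := by
        have h := Nat.choose_mul_succ_eq n (i + 1)
        have h' := congrArg (Nat.cast : ℕ → ℝ) h
        have e4 : n + 1 - (i + 1) = n - i := by omega
        rw [e4] at h'
        push_cast at h' ⊢
        linarith
      set A := EE k (cc k ^ (2 * i + 1) * nu k ^ i * PP k ^ (n - i))
      set B := EE k (cc k ^ (2 * (i + 1) + 1) * nu k ^ (i + 1) * PP k ^ (n - i - 1))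
      have : ((n + 1).choose (i + 1) : ℝ) * 3 ^ (i + 1) *
          (k * (-((2 * (i + 1) : ℕ) : ℝ) * A + 6 * ((n - i : ℕ) : ℝ) * B)) =
          -6 * k * 3 ^ i * A * (((n + 1).choose (i + 1) : ℝ) * (i + 1)) +
            6 * k * 3 ^ (i + 1) * B * (((n + 1).choose (i + 1) : ℝ) * ((n - i : ℕ) : ℝ)) := by
        push_cast
        ring
      rw [this, c1, c2]
      ring
    · have hz : n - i = 0 := by omega
      have hc : n.choose (i + 1) = 0 := Nat.choose_eq_zero_of_lt (by omega)
      rw [hz, hc]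
      rcases Nat.lt_or_ge n i with hi2 | hi2
      · have hc2 : (n + 1).choose (i + 1) = 0 := Nat.choose_eq_zero_of_lt (by omega)
        have hc3 : n.choose i = 0 := Nat.choose_eq_zero_of_lt (by omega)
        rw [hc2, hc3]
        simp
      · have hni : n = i := le_antisymm hi2 hi |>.symm ▸ rfl
        subst hni
        simp
        ring
  rw [hsum, Finset.sum_range_succ', Finset.sum_congr rfl (fun i _ => hstep i),
    Finset.sum_range_sub]
  have hw : w (n + 1) = 0 := by
    simp [w]
  rw [hw]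
  simp only [u, w]
  simp
  ring

end

end Pool.Agent.H36Flow
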