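import Mathlib
import Pool.Agent.H36Flow.Ident

set_option autoImplicit false

/-!
Expansion of the Gaussian average of the cubic interaction.
-/

namespace Pool.Agent.H36Flow

open MvPolynomial Finset

section

variable (k : ℕ)

lemma pderiv_some_sum_pow (a : Fin k) (n : ℕ) :
    pderiv (some a) (∑ b : Fin k, zz k b ^ (n + 1)) = (n + 1 : ℕ) • zz k a ^ n := by
  rw [map_sum]
  simp only [Derivation.leibniz_pow, pderiv_X]
  simp [Pi.single_apply]

lemma pderiv_none_sum_pow (n : ℕ) :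
    pderiv none (∑ b : Fin k, zz k b ^ (n + 1)) = 0 := by
  rw [map_sum]
  simp only [Derivation.leibniz_pow, pderiv_X]
  simp [Pi.single_apply]

/-- Euler derivation in the `z` variables. -/
noncomputable def EU : Derivation ℝ (MvPolynomial (Option (Fin k)) ℝ)
    (MvPolynomial (Option (Fin k)) ℝ) :=
  ∑ a : Fin k, zz k a • pderiv (some a)

lemma EU_apply (f : MvPolynomial (Option (Fin k)) ℝ) :
    EU k f = ∑ a : Fin k, zz k a * pderiv (some a) f := by
  rw [EU, ← Derivation.coeFnAddMonoidHom_apply, map_sum, Finset.sum_apply]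
  rfl

lemma EU_p3 : EU k (p3 k) = 3 * p3 k := by
  rw [EU_apply, p3, Finset.mul_sum]
  refine Finset.sum_congr rfl fun a _ => ?_
  rw [pderiv_some_sum_pow k a 2]
  simp
  ring

lemma EU_p2 : EU k (p2 k) = 2 * p2 k := by
  rw [EU_apply, p2, Finset.mul_sum]
  refine Finset.sum_congr rfl fun a _ => ?_
  rw [pderiv_some_sum_pow k a 1]
  simp
  ring

lemma EU_c : EU k (cc k) = 0 := by
  rw [EU_apply]
  simp [pderiv_X]

lemma EE_p2 (f : MvPolynomial (Option (Fin k)) ℝ) :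
    EE k (p2 k * f) = k * (k * EE k f + EE k (EU k f)) := by
  rw [EU_apply, p2, Finset.sum_mul, map_sum, map_sum]
  have : ∀ a : Fin k, EE k (zz k a ^ 2 * f) =
      k * (EE k f + EE k (zz k a * pderiv (some a) f)) := by
    intro a
    rw [pow_two, mul_assoc, EE_z, Derivation.leibniz, map_add, pderiv_X_self, smul_eq_mul,
      smul_eq_mul, mul_one]
    ring
  rw [Finset.sum_congr rfl fun a _ => this a, ← Finset.mul_sum, Finset.sum_add_distrib]
  simp

lemma M_p2 (i l e : ℕ) : EE k (cc k ^ e * p3 k ^ i * p2 k ^ (l + 1)) =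
    k * (k + 3 * i + 2 * l) * EE k (cc k ^ e * p3 k ^ i * p2 k ^ l) := by
  have h0 : cc k ^ e * p3 k ^ i * p2 k ^ (l + 1) = p2 k * (cc k ^ e * p3 k ^ i * p2 k ^ l) := by
    ring
  rw [h0, EE_p2]
  have h1 : EU k (cc k ^ e * p3 k ^ i * p2 k ^ l) =
      ((3 * i + 2 * l : ℝ)) • (cc k ^ e * p3 k ^ i * p2 k ^ l) := by
    simp only [Derivation.leibniz, Derivation.leibniz_pow, EU_c, EU_p2, EU_p3, smul_eq_mul]
    simp only [nsmul_eq_mul, MvPolynomial.smul_eq_C_mul, map_add, map_mul, map_natCast,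
      map_ofNat]
    rcases i with _ | i
    · rcases l with _ | l
      · simp
      · simp only [Nat.add_sub_cancel]
        push_cast
        ring
    · rcases l with _ | l
      · simp only [Nat.add_sub_cancel]
        push_cast
        ring
      · simp only [Nat.add_sub_cancel]
        push_cast
        ring
  rw [h1, map_smul, smul_eq_mul]
  ring

lemma M_p2_all (i l e : ℕ) : EE k (cc k ^ e * p3 k ^ i * p2 k ^ l) =
    k ^ l * (∏ t ∈ range l, ((k : ℝ) + 3 * i + 2 * t)) * EE k (cc k ^ e * p3 k ^ i) := by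
  induction l with
  | zero => simp
  | succ l ih =>
    rw [M_p2, ih, prod_range_succ]
    ring

lemma EE_cpow (e : ℕ) (f : MvPolynomial (Option (Fin k)) ℝ) (hf : pderiv none f = 0) :
    EE k (cc k ^ e * f) = mom (-1) e * EE k f := by
  induction e using Nat.strong_induction_on with
  | _ e ih =>
    rcases e with _ | _ | e
    · simp
    · rw [zero_add, pow_one, EE_c, hf]
      simp
    · have h0 : cc k ^ (e + 1 + 1) * f = cc k * (cc k ^ (e + 1) * f) := by ring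
      rw [h0, EE_c]
      have h1 : pderiv none (cc k ^ (e + 1) * f) = ((e + 1 : ℕ) : ℝ) • (cc k ^ e * f) := by
        simp only [Derivation.leibniz, Derivation.leibniz_pow, hf, pderiv_X, smul_eq_mul]
        simp only [nsmul_eq_mul, MvPolynomial.smul_eq_C_mul, map_natCast]
        simp
        ring
      rw [h1, map_smul, ih e (by omega), mom_add_two, smul_eq_mul]
      push_cast
      ring

lemma pderiv_none_p3_pow (i : ℕ) : pderiv none (p3 k ^ i) = 0 := by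
  rw [Derivation.leibniz_pow, p3, pderiv_none_sum_pow k 2]
  simp

lemma M_all (i l e : ℕ) : EE k (cc k ^ e * p3 k ^ i * p2 k ^ l) =
    k ^ l * (∏ t ∈ range l, ((k : ℝ) + 3 * i + 2 * t)) * mom (-1) e * EE k (p3 k ^ i) := by
  rw [M_p2_all, EE_cpow k e _ (pderiv_none_p3_pow k i)]
  ring

/-- the coefficient functions -/
noncomputable def hh (q : ℝ) (i r : ℕ) : ℝ :=
  ∑ p ∈ antidiagonal r, 3 ^ p.1 * (-2 * q) ^ p.2 * q ^ p.1 / (p.1.factorial * p.2.factorial)
    * mom (-1) (p.1 + 3 * p.2) * ∏ t ∈ range p.1, (q + 3 * i - 2 + 2 * t)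

lemma expand_aux (e i r : ℕ) :
    EE k (cc k ^ e * p3 k ^ i * (3 * cc k * p2 k - 2 * C (k : ℝ) * cc k ^ 3) ^ r) =
    r.factorial * ∑ p ∈ antidiagonal r, 3 ^ p.1 * (-2 * (k : ℝ)) ^ p.2 * k ^ p.1
      / (p.1.factorial * p.2.factorial) * mom (-1) (p.1 + 3 * p.2 + e)
      * (∏ t ∈ range p.1, ((k : ℝ) + 3 * i + 2 * t)) * EE k (p3 k ^ i) := by
  rw [sub_eq_add_neg, (Commute.all _ _).add_pow', mul_sum, mul_sum, map_sum]
  refine sum_congr rfl fun p hp => ?_
  have hp' : p.1 + p.2 = r := mem_antidiagonal.mp hp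
  have h1 : cc k ^ e * p3 k ^ i * (r.choose p.1 • ((3 * cc k * p2 k) ^ p.1 *
      (-(2 * C (k : ℝ) * cc k ^ 3)) ^ p.2)) =
      ((r.choose p.1 : ℝ) * 3 ^ p.1 * (-2 * (k : ℝ)) ^ p.2) •
        (cc k ^ (p.1 + 3 * p.2 + e) * p3 k ^ i * p2 k ^ p.1) := by
    simp only [nsmul_eq_mul, MvPolynomial.smul_eq_C_mul, map_mul, map_natCast, map_ofNat,
      map_pow, map_neg]
    have : (-(2 * (k : MvPolynomial (Option (Fin k)) ℝ) * cc k ^ 3)) ^ p.2 =
        (-2 * (k : MvPolynomial (Option (Fin k)) ℝ)) ^ p.2 * (cc k ^ (3 * p.2)) := by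
      rw [pow_mul, ← mul_pow]
      congr 1
      ring
    rw [this]
    ring
  rw [h1, map_smul, M_all, smul_eq_mul]
  have h2 : (r.choose p.1 : ℝ) = r.factorial / (p.1.factorial * p.2.factorial) := by
    rw [← hp', Nat.cast_add_choose]
  rw [h2]
  ring

lemma expand_PP (e n : ℕ) :
    EE k (cc k ^ e * PP k ^ n) = n.factorial * ∑ p ∈ antidiagonal n,
      EE k (p3 k ^ p.1) / p.1.factorial *
      ∑ s ∈ antidiagonal p.2, 3 ^ s.1 * (-2 * (k : ℝ)) ^ s.2 * k ^ s.1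
      / (s.1.factorial * s.2.factorial) * mom (-1) (s.1 + 3 * s.2 + e)
      * (∏ t ∈ range s.1, ((k : ℝ) + 3 * p.1 + 2 * t)) := by
  have hP : PP k = p3 k + (3 * cc k * p2 k - 2 * C (k : ℝ) * cc k ^ 3) := by
    rw [PP]
    ring
  rw [hP, (Commute.all _ _).add_pow', mul_sum, mul_sum, map_sum]
  refine sum_congr rfl fun p hp => ?_
  have hp' : p.1 + p.2 = n := mem_antidiagonal.mp hp
  have h1 : cc k ^ e * (n.choose p.1 • (p3 k ^ p.1 *
      (3 * cc k * p2 k - 2 * C (k : ℝ) * cc k ^ 3) ^ p.2)) = (n.choose p.1 : ℝ) •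
      (cc k ^ e * p3 k ^ p.1 * (3 * cc k * p2 k - 2 * C (k : ℝ) * cc k ^ 3) ^ p.2) := by
    rw [Nat.cast_smul_eq_nsmul]
    simp only [nsmul_eq_mul]
    ring
  rw [h1, map_smul, expand_aux, smul_eq_mul, ← sum_mul]
  have h2 : (n.choose p.1 : ℝ) = n.factorial / (p.1.factorial * p.2.factorial) := by
    rw [← hp', Nat.cast_add_choose]
  rw [h2]
  have h3 : (p.1.factorial : ℝ) ≠ 0 := by positivity
  have h4 : (p.2.factorial : ℝ) ≠ 0 := by positivity
  field_simp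

lemma hh_rec (i r : ℕ) :
    hh (k : ℝ) i (r + 1) =
      (∑ s ∈ antidiagonal (r + 1), 3 ^ s.1 * (-2 * (k : ℝ)) ^ s.2 * k ^ s.1
      / (s.1.factorial * s.2.factorial) * mom (-1) (s.1 + 3 * s.2 + 0)
      * (∏ t ∈ range s.1, ((k : ℝ) + 3 * i + 2 * t))) - 6 * k *
      (∑ s ∈ antidiagonal r, 3 ^ s.1 * (-2 * (k : ℝ)) ^ s.2 * k ^ s.1
      / (s.1.factorial * s.2.factorial) * mom (-1) (s.1 + 3 * s.2 + 1)
      * (∏ t ∈ range s.1, ((k : ℝ) + 3 * i + 2 * t))) := by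
  rw [hh, Finset.Nat.sum_antidiagonal_succ, Finset.Nat.sum_antidiagonal_succ]
  simp only [add_zero, pow_zero, one_mul, mul_one, Nat.factorial_zero, range_zero, prod_empty,
    zero_add]
  rw [eq_sub_iff_add_eq, add_assoc]
  congr 1
  rw [mul_sum, ← sum_add_distrib]
  refine sum_congr rfl fun s _ => ?_
  rw [prod_range_succ' (fun t : ℕ => (k : ℝ) + 3 * i - 2 + 2 * (t : ℝ)),
    prod_range_succ (fun t : ℕ => (k : ℝ) + 3 * i + 2 * (t : ℝ))]
  have e1 : s.1 + 1 + 3 * s.2 = s.1 + 3 * s.2 + 1 := by ring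
  rw [e1]
  have e2 : ∏ t ∈ range s.1, ((k : ℝ) + 3 * i - 2 + 2 * ((t + 1 : ℕ) : ℝ)) =
      ∏ t ∈ range s.1, ((k : ℝ) + 3 * i + 2 * (t : ℝ)) := by
    refine prod_congr rfl fun t _ => ?_
    push_cast
    ring
  rw [e2, Nat.factorial_succ]
  have h3 : (s.1.factorial : ℝ) ≠ 0 := by positivity
  have h4 : (s.2.factorial : ℝ) ≠ 0 := by positivity
  have h5 : ((s.1 : ℝ) + 1) ≠ 0 := by positivity
  push_cast
  field_simp
  ring

lemma hh_zero (q : ℝ) (i : ℕ) : hh q i 0 = 1 := by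
  simp [hh]

/-- The Gaussian average of the cubic interaction in terms of `E(p3^i)`. -/
theorem EE_QQ (n : ℕ) : EE k (QQ k ^ (n + 1)) = (n + 1).factorial *
    ∑ p ∈ antidiagonal (n + 1), EE k (p3 k ^ p.1) / p.1.factorial * hh (k : ℝ) p.1 p.2 := by
  rw [main_ident]
  have h1 := expand_PP k 0 (n + 1)
  have h2 := expand_PP k 1 n
  rw [pow_zero, one_mul] at h1
  rw [pow_one] at h2
  rw [h1, h2, Finset.Nat.sum_antidiagonal_succ', Finset.Nat.sum_antidiagonal_succ']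
  simp only [hh_zero, hh_rec]
  simp only [Finset.Nat.antidiagonal_zero, sum_singleton, pow_zero, Nat.factorial_zero, range_zero,
    prod_empty]
  rw [Nat.factorial_succ]
  simp only [mul_sub, sum_sub_distrib]
  have e : ∀ p : ℕ × ℕ, EE k (p3 k ^ p.1) / (p.1.factorial : ℝ) * (6 * (k : ℝ) *
      ∑ s ∈ antidiagonal p.2, 3 ^ s.1 * (-2 * (k : ℝ)) ^ s.2 * (k : ℝ) ^ s.1
      / ((s.1.factorial : ℝ) * (s.2.factorial : ℝ)) * mom (-1) (s.1 + 3 * s.2 + 1)
      * (∏ t ∈ range s.1, ((k : ℝ) + 3 * p.1 + 2 * t))) = (6 * k) *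
      (EE k (p3 k ^ p.1) / (p.1.factorial : ℝ) * 
      ∑ s ∈ antidiagonal p.2, 3 ^ s.1 * (-2 * (k : ℝ)) ^ s.2 * (k : ℝ) ^ s.1
      / ((s.1.factorial : ℝ) * (s.2.factorial : ℝ)) * mom (-1) (s.1 + 3 * s.2 + 1)
      * (∏ t ∈ range s.1, ((k : ℝ) + 3 * p.1 + 2 * t))) := by
    intro p
    ring
  rw [sum_congr rfl fun p _ => e p, ← mul_sum]
  push_cast
  simp
  ring

end

end Pool.Agent.H36Flow
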