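import Mathlib
import Pool.Agent.H36Flow.Expand

set_option autoImplicit false

/-!
The Gaussian average as a polynomial in the number of colours.
-/

namespace Pool.Agent.H36Flow

open MvPolynomial Finset

lemma mom_odd (v : ℝ) (n : ℕ) : mom v (2 * n + 1) = 0 := by
  induction n with
  | zero => simp
  | succ n ih =>
    rw [show 2 * (n + 1) + 1 = 2 * n + 1 + 2 by ring, mom_add_two, ih, mul_zero]

/-- the coefficients of the cubic series -/
noncomputable def aR : ℕ → ℝ
  | 0 => 1
  | (i + 1) => aR i * (3 * (6 * i + 1) * (6 * i + 5)) / (2 * (i + 1))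

lemma mom_six (v : ℝ) (m : ℕ) :
    mom v (3 * (2 * m)) / ((2 * m).factorial : ℝ) = v ^ (3 * m) * aR m := by
  induction m with
  | zero => simp [aR]
  | succ m ih =>
    rw [aR]
    have e : 3 * (2 * (m + 1)) = 3 * (2 * m) + 2 + 2 + 2 := by ring
    have e2 : 2 * (m + 1) = 2 * m + 1 + 1 := by ring
    rw [e, mom_add_two, mom_add_two, mom_add_two, e2, Nat.factorial_succ, Nat.factorial_succ]
    have h : mom v (3 * (2 * m)) = v ^ (3 * m) * aR m * ((2 * m).factorial : ℝ) := by
      rw [← ih]
      field_simp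
    rw [h]
    push_cast
    have h1 : ((2 * m).factorial : ℝ) ≠ 0 := by positivity
    field_simp
    ring

section

variable (k : ℕ)

lemma EE_zpow (a : Fin k) (e : ℕ) (f : MvPolynomial (Option (Fin k)) ℝ)
    (hf : pderiv (some a) f = 0) :
    EE k (zz k a ^ e * f) = mom k e * EE k f := by
  induction e using Nat.strong_induction_on with
  | _ e ih =>
    rcases e with _ | _ | e
    · simp
    · rw [zero_add, pow_one, EE_z, hf]
      simp
    · have h0 : zz k a ^ (e + 1 + 1) * f = zz k a * (zz k a ^ (e + 1) * f) := by ring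
      rw [h0, EE_z]
      have h1 : pderiv (some a) (zz k a ^ (e + 1) * f) =
          ((e + 1 : ℕ) : ℝ) • (zz k a ^ e * f) := by
        simp only [Derivation.leibniz, Derivation.leibniz_pow, hf, pderiv_X_self, smul_eq_mul]
        simp only [nsmul_eq_mul, MvPolynomial.smul_eq_C_mul, map_natCast]
        simp
        ring
      rw [h1, map_smul, ih e (by omega), mom_add_two, smul_eq_mul]
      push_cast
      ring

/-- exponential generating series of the moments of the cube -/
noncomputable def Bs (v : ℝ) : PowerSeries ℝ :=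
  PowerSeries.mk fun s => mom v (3 * s) / (s.factorial : ℝ)

lemma EE_one : EE k 1 = 1 := by
  have := E_monomial (vv k) 0 1
  simpa using this

lemma EE_p3_aux (s : Finset (Fin k)) (n : ℕ) :
    EE k ((∑ a ∈ s, zz k a ^ 3) ^ n) = n.factorial * PowerSeries.coeff n (Bs k ^ s.card) := by
  induction s using Finset.induction_on generalizing n with
  | empty =>
    rcases n with _ | n
    · simp [EE_one]
    · simp [PowerSeries.coeff_one]
  | insert a s ha ih =>
    rw [sum_insert ha, card_insert_of_notMem ha, (Commute.all _ _).add_pow', map_sum,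
      pow_succ' (Bs (k : ℝ)), PowerSeries.coeff_mul, mul_sum]
    refine sum_congr rfl fun p hp => ?_
    have hp' : p.1 + p.2 = n := mem_antidiagonal.mp hp
    have hf : pderiv (some a) ((∑ b ∈ s, zz k b ^ 3) ^ p.2) = 0 := by
      rw [Derivation.leibniz_pow, map_sum]
      have : ∑ b ∈ s, pderiv (some a) (zz k b ^ 3) = 0 := by
        refine sum_eq_zero fun b hb => ?_
        rw [Derivation.leibniz_pow, pderiv_X_of_ne]
        · simp
        · intro h
          exact ha ((Option.some.inj h) ▸ hb)
      rw [this]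
      simp
    rw [← pow_mul, ← Nat.cast_smul_eq_nsmul ℝ, map_smul, EE_zpow k a _ _ hf, ih, smul_eq_mul,
      ← hp', Nat.cast_add_choose]
    simp only [Bs, PowerSeries.coeff_mk]
    have h3 : (p.1.factorial : ℝ) ≠ 0 := by positivity
    have h4 : (p.2.factorial : ℝ) ≠ 0 := by positivity
    field_simp

/-- coefficients of the `k`-th power -/
noncomputable def bet (n : ℕ) : ℝ := PowerSeries.coeff n (Bs k ^ k)

lemma EE_p3 (n : ℕ) : EE k (p3 k ^ n) / (n.factorial : ℝ) = bet k n := by
  have h := EE_p3_aux k Finset.univ n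
  rw [Finset.card_univ, Fintype.card_fin] at h
  rw [p3, h, bet]
  have h3 : (n.factorial : ℝ) ≠ 0 := by positivity
  field_simp

open PowerSeries in
lemma bet_rec (n : ℕ) :
    ∑ p ∈ antidiagonal n, ((p.1 : ℝ) - k * p.2) * bet k p.1 * (mom k (3 * p.2) / p.2.factorial)
      = 0 := by
  have hX : ∀ (f : PowerSeries ℝ) (n : ℕ),
      PowerSeries.coeff n (PowerSeries.X * PowerSeries.derivative ℝ f) =
        n * PowerSeries.coeff n f := by
    intro f n
    rcases n with _ | n
    · simp
    · rw [PowerSeries.coeff_succ_X_mul, PowerSeries.coeff_derivative]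
      push_cast
      ring
  have h1 : (PowerSeries.X * PowerSeries.derivative ℝ (Bs k ^ k)) * Bs k =
      (k : ℝ) • ((Bs k ^ k) * (PowerSeries.X * PowerSeries.derivative ℝ (Bs k))) := by
    rw [Derivation.leibniz_pow]
    rcases k with _ | k
    · simp
    · simp only [Nat.add_sub_cancel, smul_eq_mul, nsmul_eq_mul, PowerSeries.smul_eq_C_mul,
        map_natCast]
      ring
  have h2 := congrArg (PowerSeries.coeff n) h1
  rw [PowerSeries.coeff_mul, PowerSeries.coeff_smul, PowerSeries.coeff_mul] at h2
  simp only [hX] at h2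
  rw [smul_eq_mul, mul_sum, ← sub_eq_zero, ← sum_sub_distrib] at h2
  rw [← h2]
  refine sum_congr rfl fun p _ => ?_
  simp only [bet, Bs, PowerSeries.coeff_mk]
  ring

end

lemma sum_antidiagonal_even (M : ℕ) (f : ℕ × ℕ → ℝ)
    (hf : ∀ i j, i + (2 * j + 1) = 2 * M → f (i, 2 * j + 1) = 0) :
    ∑ p ∈ antidiagonal (2 * M), f p = ∑ p ∈ antidiagonal M, f (2 * p.1, 2 * p.2) := by
  have hinj : Set.InjOn (fun p : ℕ × ℕ => (2 * p.1, 2 * p.2)) (antidiagonal M : Set (ℕ × ℕ)) := by
    intro a _ b _ h
    simp only [Prod.mk.injEq] at h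
    ext <;> omega
  rw [← sum_image (f := f) (g := fun p : ℕ × ℕ => (2 * p.1, 2 * p.2)) hinj]
  symm
  refine sum_subset ?_ ?_
  · intro p hp
    simp only [mem_image, HasAntidiagonal.mem_antidiagonal] at hp ⊢
    obtain ⟨a, ha, rfl⟩ := hp
    simp only
    omega
  · rintro ⟨i, r⟩ hp hn
    simp only [HasAntidiagonal.mem_antidiagonal] at hp
    rcases Nat.even_or_odd' r with ⟨j, hj | hj⟩
    · exfalso
      apply hn
      simp only [mem_image, HasAntidiagonal.mem_antidiagonal]
      refine ⟨(M - j, j), ?_, ?_⟩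
      · simp only
        omega
      · simp only [Prod.mk.injEq]
        omega
    · subst hj
      exact hf i j hp

/-- Polynomials in the number of colours `q` giving the coefficients of the `q`-th power. -/
noncomputable def Mt : ℕ → Polynomial ℝ
  | 0 => 1
  | (m + 1) => Polynomial.C (1 / ((m : ℝ) + 1)) *
      ∑ i : Fin (m + 1), (Polynomial.C ((m + 1 - i.1 : ℕ) : ℝ) * Polynomial.X
        - Polynomial.C (i.1 : ℝ)) * Polynomial.C (aR (m + 1 - i.1)) * Mt i.1

lemma Mt_rec (q : ℝ) (m : ℕ) : ((m : ℝ) + 1) * (Mt (m + 1)).eval q =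
    ∑ p ∈ antidiagonal m, (((p.2 : ℝ) + 1) * q - p.1) * aR (p.2 + 1) * (Mt p.1).eval q := by
  rw [Mt, Finset.Nat.sum_antidiagonal_eq_sum_range_succ
    (fun i j => (((j : ℝ) + 1) * q - i) * aR (j + 1) * (Mt i).eval q), Nat.succ_eq_add_one,
    Finset.sum_range]
  simp only [Polynomial.eval_mul, Polynomial.eval_C, Polynomial.eval_finsetSum,
    Polynomial.eval_sub, Polynomial.eval_X]
  rw [← mul_assoc]
  have h5 : ((m : ℝ) + 1) ≠ 0 := by positivity
  rw [mul_one_div_cancel h5, one_mul]
  refine sum_congr rfl fun i _ => ?_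
  have e : m + 1 - i.1 = m - i.1 + 1 := by omega
  rw [e]
  push_cast
  ring

lemma bet_eq (k n : ℕ) : ∀ m, (2 * m + 1 = n → bet k n = 0) ∧
    (2 * m = n → bet k n = (k : ℝ) ^ (3 * m) * (Mt m).eval (k : ℝ)) := by
  induction n using Nat.strong_induction_on with
  | _ n ih =>
    intro m
    constructor
    · intro hn
      have h := bet_rec k n
      rw [← hn, Finset.Nat.sum_antidiagonal_succ'] at h
      have hz : ∑ p ∈ antidiagonal (2 * m), (((p.1 : ℕ) : ℝ) - k * ((p.2 + 1 : ℕ) : ℝ)) *
          bet k p.1 * (mom k (3 * (p.2 + 1)) / (p.2 + 1).factorial) = 0 := by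
        refine sum_eq_zero fun p hp => ?_
        have hp' := mem_antidiagonal.mp hp
        rcases Nat.even_or_odd' p.2 with ⟨j, hj | hj⟩
        · have : mom k (3 * (p.2 + 1)) = 0 := by
            rw [show 3 * (p.2 + 1) = 2 * (3 * j + 1) + 1 by omega]
            exact mom_odd _ _
          rw [this]
          simp
        · have : bet k p.1 = 0 := by
            have h1 := (ih p.1 (by omega) (m - j - 1)).1 (by omega)
            exact h1
          rw [this]
          simp
      rw [hz, add_zero] at h
      rw [← hn]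
      have h5 : ((2 * m + 1 : ℕ) : ℝ) ≠ 0 := by positivity
      simp only [mul_zero, mom_zero, Nat.factorial_zero, Nat.cast_one, div_one, mul_one,
        Nat.cast_zero, sub_zero] at h
      rcases mul_eq_zero.mp h with h8 | h8
      · exact absurd h8 h5
      · exact h8
    · intro hn
      rcases m with _ | m
      · subst hn
        simp [bet, Mt, Bs]
      · have h := bet_rec k n
        rw [← hn, sum_antidiagonal_even (m + 1)] at h
        · rw [Finset.Nat.sum_antidiagonal_succ'] at h
          simp only [mul_zero, mom_zero, Nat.factorial_zero, Nat.cast_one, div_one, mul_one,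
            Nat.cast_zero, sub_zero] at h
          have hs : ∑ p ∈ antidiagonal m, (((2 * p.1 : ℕ) : ℝ) - k * ((2 * (p.2 + 1) : ℕ) : ℝ)) *
              bet k (2 * p.1) * (mom k (3 * (2 * (p.2 + 1))) / (2 * (p.2 + 1)).factorial) =
              - 2 * (k : ℝ) ^ (3 * (m + 1)) * (((m : ℝ) + 1) * (Mt (m + 1)).eval (k : ℝ)) := by
            rw [Mt_rec, mul_sum]
            refine sum_congr rfl fun p hp => ?_
            have hp' := mem_antidiagonal.mp hp
            rw [mom_six, (ih (2 * p.1) (by omega) p.1).2 rfl, ← hp']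
            push_cast
            ring
          rw [hs] at h
          rw [← hn]
          have h5 : ((m : ℝ) + 1) ≠ 0 := by positivity
          have h6 : ((2 * (m + 1) : ℕ) : ℝ) = 2 * ((m : ℝ) + 1) := by push_cast; ring
          rw [h6] at h
          have h7 : 2 * ((m : ℝ) + 1) * (bet k (2 * (m + 1)) -
              (k : ℝ) ^ (3 * (m + 1)) * (Mt (m + 1)).eval (k : ℝ)) = 0 := by
            linear_combination h
          rcases mul_eq_zero.mp h7 with h8 | h8
          · exfalso
            apply h5
            linarith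
          · linarith
        · intro i j hij
          have : mom k (3 * (2 * j + 1)) = 0 := by
            rw [show 3 * (2 * j + 1) = 2 * (3 * j + 1) + 1 by omega]
            exact mom_odd _ _
          simp only
          rw [this]
          simp

/-- the coefficient polynomials -/
noncomputable def cp (m j : ℕ) : Polynomial ℝ :=
  ∑ p ∈ antidiagonal (2 * j), Polynomial.C (3 ^ p.1 * (-2) ^ p.2
    / (p.1.factorial * p.2.factorial) * mom (-1) (p.1 + 3 * p.2)) *
    ∏ t ∈ range p.1, (Polynomial.X + Polynomial.C (6 * (m : ℝ) - 2 + 2 * t))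

/-- the average (up to a factorial) -/
noncomputable def Rp (N : ℕ) : Polynomial ℝ :=
  ∑ p ∈ antidiagonal N, Polynomial.X ^ p.1 * Mt p.1 * cp p.1 p.2

lemma hh_eq (q : ℝ) (m j : ℕ) : hh q (2 * m) (2 * j) = q ^ (2 * j) * (cp m j).eval q := by
  rw [hh, cp]
  simp only [Polynomial.eval_finsetSum, Polynomial.eval_mul, Polynomial.eval_C,
    Polynomial.eval_prod, Polynomial.eval_add, Polynomial.eval_X]
  rw [mul_sum]
  refine sum_congr rfl fun p hp => ?_
  have hp' := mem_antidiagonal.mp hp
  have e : ∏ t ∈ range p.1, (q + 3 * ((2 * m : ℕ) : ℝ) - 2 + 2 * (t : ℝ)) =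
      ∏ t ∈ range p.1, (q + (6 * (m : ℝ) - 2 + 2 * t)) := by
    refine prod_congr rfl fun t _ => ?_
    push_cast
    ring
  rw [e, ← hp', pow_add, mul_pow]
  ring

theorem EE_QQ_even (k N : ℕ) : EE k (QQ k ^ (2 * (N + 1))) =
    (2 * (N + 1)).factorial * (k : ℝ) ^ (2 * (N + 1)) * (Rp (N + 1)).eval (k : ℝ) := by
  have e0 : 2 * (N + 1) = 2 * N + 1 + 1 := by ring
  have h := EE_QQ k (2 * N + 1)
  rw [← e0] at h
  rw [h, sum_antidiagonal_even (N + 1)]
  · rw [mul_assoc]
    congr 1
    rw [Rp]
    simp only [Polynomial.eval_finsetSum, Polynomial.eval_mul, Polynomial.eval_pow,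
      Polynomial.eval_X]
    rw [mul_sum]
    refine sum_congr rfl fun p hp => ?_
    have hp' := mem_antidiagonal.mp hp
    rw [EE_p3, (bet_eq k (2 * p.1) p.1).2 rfl, hh_eq, ← hp']
    ring
  · intro i j hij
    simp only
    rw [EE_p3, (bet_eq k i (N - j)).1 (by omega)]
    simp

end Pool.Agent.H36Flow
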