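import Mathlib
import Pool.Agent.H36Flow.Series
import Pool.Agent.H36Flow.Cubic

set_option autoImplicit false

/-!
First moment method: if the average is negative at some point then some graph has a large root.
-/

namespace Pool.Agent.H36Flow

open Finset SimpleGraph

/-- each vertex three times -/
def LL (n : ℕ) : List (Fin n) := (List.finRange n).flatMap fun v => [v, v, v]

lemma LL_length (n : ℕ) : (LL n).length = 3 * n := by
  simp [LL, List.length_flatMap, mul_comm]

lemma LL_prod {A : Type} [CommRing A] (n : ℕ) (f : Fin n → A) :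
    ((LL n).map f).prod = ∏ v, f v ^ 3 := by
  rw [LL, List.map_flatMap]
  simp only [List.map_cons, List.map_nil]
  have : ∀ l : List (Fin n), (l.flatMap fun v => [f v, f v, f v]).prod =
      (l.map fun v => f v ^ 3).prod := by
    intro l
    induction l with
    | nil => simp
    | cons a l ih =>
      rw [List.flatMap_cons, List.prod_append, ih, List.map_cons, List.prod_cons]
      simp
      ring
  rw [this, ← List.ofFn_eq_map, List.prod_ofFn]

section

variable (k : ℕ)

/-- derivation attached to a colour -/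
noncomputable def Dcol (a : Fin k) : Derivation ℝ (MvPolynomial (Option (Fin k)) ℝ)
    (MvPolynomial (Option (Fin k)) ℝ) :=
  (k : ℝ) • MvPolynomial.pderiv (some a) - MvPolynomial.pderiv none

lemma EE_phi (a : Fin k) (f : MvPolynomial (Option (Fin k)) ℝ) :
    EE k ((zz k a + cc k) * f) = EE k (Dcol k a f) := by
  rw [add_mul, map_add, EE_z, EE_c, Dcol, Derivation.sub_apply, Derivation.smul_apply, map_sub,
    map_smul, smul_eq_mul]
  ring

lemma Dcol_phi (a b : Fin k) : Dcol k a (zz k b + cc k) = MvPolynomial.C (KK a b) := by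
  have h1 : MvPolynomial.pderiv none (zz k b) = 0 := MvPolynomial.pderiv_X_of_ne (by simp)
  have h2 : MvPolynomial.pderiv none (cc k) = 1 := MvPolynomial.pderiv_X_self _
  have h3 : MvPolynomial.pderiv (some a) (cc k) = 0 := MvPolynomial.pderiv_X_of_ne (by simp)
  rw [Dcol, Derivation.sub_apply, Derivation.smul_apply, map_add, map_add, h1, h2, h3, KK]
  by_cases h : a = b
  · subst h
    rw [MvPolynomial.pderiv_X_self, if_pos rfl]
    simp [MvPolynomial.smul_eq_C_mul]
  · have h4 : MvPolynomial.pderiv (some a) (zz k b) = 0 :=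
      MvPolynomial.pderiv_X_of_ne (fun h' => h (Option.some.inj h').symm)
    rw [h4, if_neg h]
    simp

lemma sum_colour (n : ℕ) (h : Even n) :
    ∑ σ : Fin n → Fin k, msum (3 * (n / 2)) (LL n)
      (fun m => (m.map fun e => KK (σ e.1) (σ e.2)).prod) = EE k (QQ k ^ n) := by
  have h1 : ∀ σ : Fin n → Fin k, msum (3 * (n / 2)) (LL n)
      (fun m => (m.map fun e => KK (σ e.1) (σ e.2)).prod) =
      EE k (∏ v, (zz k (σ v) + cc k) ^ 3) := by
    intro σ
    have h2 := msum_eq_E (vv k) (fun v : Fin n => zz k (σ v) + cc k) (fun v => Dcol k (σ v))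
      (fun a b => KK (σ a) (σ b)) (fun a f => EE_phi k (σ a) f)
      (fun a b => Dcol_phi k (σ a) (σ b)) (3 * (n / 2)) (LL n)
      (by rw [LL_length]; obtain ⟨r, hr⟩ := h; omega)
    rw [h2, LL_prod]
  rw [sum_congr rfl fun σ _ => h1 σ, ← map_sum]
  congr 1
  have h3 := (Finset.prod_univ_sum (fun _ : Fin n => (univ : Finset (Fin k)))
    (fun _ a => (zz k a + cc k) ^ 3))
  rw [Fintype.piFinset_univ] at h3
  rw [← h3, prod_const, card_univ, Fintype.card_fin, QQ]

end

/-- the sum of the flow polynomials over all pairings -/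
noncomputable def TT (n : ℕ) : Polynomial ℝ :=
  msum (3 * (n / 2)) (LL n) (fun m => fpoly (Es m))

lemma TT_eval (n : ℕ) (q : ℝ) :
    (TT n).eval q = msum (3 * (n / 2)) (LL n) (fun m => (fpoly (Es m)).eval q) :=
  msum_map (Polynomial.evalRingHom q).toAddMonoidHom _ _ _

lemma TT_eval_nat (N k : ℕ) (hk : 0 < k) : (TT (2 * (N + 1))).eval (k : ℝ) =
    (2 * (N + 1)).factorial * (Rp (N + 1)).eval (k : ℝ) := by
  have hk' : (k : ℝ) ^ (2 * (N + 1)) ≠ 0 := by positivity
  apply mul_left_cancel₀ hk'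
  have h1 : (k : ℝ) ^ (2 * (N + 1)) * (TT (2 * (N + 1))).eval (k : ℝ) =
      EE k (QQ k ^ (2 * (N + 1))) := by
    rw [TT_eval, ← msum_const_mul, ← sum_colour k _ (even_two_mul _)]
    simp only [fpoly_Es_eval _ k hk]
    rw [msum_sum]
  rw [h1, EE_QQ_even]
  ring

lemma TT_eq (N : ℕ) : TT (2 * (N + 1)) =
    Polynomial.C ((2 * (N + 1)).factorial : ℝ) * Rp (N + 1) := by
  apply Polynomial.eq_of_infinite_eval_eq
  refine Set.Infinite.mono (s := Set.range fun k : ℕ => ((k + 1 : ℕ) : ℝ)) ?_ ?_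
  · rintro _ ⟨k, rfl⟩
    simp only [Set.mem_ofPred_eq, Polynomial.eval_mul, Polynomial.eval_C]
    exact TT_eval_nat N (k + 1) (Nat.succ_pos k)
  · refine Set.infinite_range_of_injective fun a b h => ?_
    have : (a + 1 : ℕ) = b + 1 := Nat.cast_injective h
    omega

/-- If the average is negative at `q0` in `(6,7)` then some simple graph has a flow root
above `6`. -/
theorem exists_of_neg (N : ℕ) (q0 : ℝ) (h6 : 6 < q0) (h7 : q0 ≤ 7)
    (hneg : (Rp (N + 1)).eval q0 < 0) :
    ∃ m : List (Fin (2 * (N + 1)) × Fin (2 * (N + 1))),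
      (fpoly (Es m)) ≠ 0 ∧ ∃ q : ℝ, 6 < q ∧ (fpoly (Es m)).IsRoot q := by
  have h1 : (TT (2 * (N + 1))).eval q0 < 0 := by
    rw [TT_eq, Polynomial.eval_mul, Polynomial.eval_C]
    exact mul_neg_of_pos_of_neg (by positivity) hneg
  rw [TT_eval] at h1
  have h2 : ∃ m : List (Fin (2 * (N + 1)) × Fin (2 * (N + 1))),
      (fpoly (Es m)).eval q0 < 0 := by
    by_contra hcon
    push Not at hcon
    exact absurd (msum_nonneg _ _ _ hcon) (not_le.mpr h1)
  obtain ⟨m, hm⟩ := h2
  refine ⟨m, ?_, ?_⟩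
  · intro h0
    rw [h0] at hm
    simp at hm
  · have h3 := fpoly_seven m
    have hcont : ContinuousOn (fun x => (fpoly (Es m)).eval x) (Set.Icc q0 7) :=
      (fpoly (Es m)).continuous.continuousOn
    have h4 := intermediate_value_Icc h7 hcont
    obtain ⟨x, hx, hx2⟩ := h4 ⟨hm.le, h3⟩
    exact ⟨x, lt_of_lt_of_le h6 hx.1, hx2⟩

/-- the frozen negation, given negativity -/
theorem frozen_of_neg (N : ℕ) (q0 : ℝ) (h6 : 6 < q0) (h7 : q0 ≤ 7)
    (hneg : (Rp (N + 1)).eval q0 < 0) :
    ¬ (∀ (V : Type) [Fintype V] (G : SimpleGraph V) [DecidableRel G.Adj] (p : Polynomial ℝ),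
      p = ∑ A ∈ G.edgeFinset.powerset,
        (-1 : Polynomial ℝ) ^ (G.edgeFinset.card - A.card) *
          Polynomial.X ^ (A.card
            + Nat.card (SimpleGraph.fromEdgeSet (A : Set (Sym2 V))).ConnectedComponent
            - Fintype.card V) →
      p ≠ 0 → ∀ q : ℝ, p.IsRoot q → q ≤ 6) := by
  classical
  intro h
  obtain ⟨m, hm0, q, hq, hroot⟩ := exists_of_neg N q0 h6 h7 hneg
  have h1 := h (WW m) (SimpleGraph.fromEdgeSet (Es m : Set (Sym2 (WW m)))) (fpoly (Es m))
  have h2 : ∀ inst : Fintype (SimpleGraph.fromEdgeSet (Es m : Set (Sym2 (WW m)))).edgeSet,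
      @SimpleGraph.edgeFinset _ (SimpleGraph.fromEdgeSet (Es m : Set (Sym2 (WW m)))) inst
        = Es m := by
    intro inst
    ext e
    rw [SimpleGraph.mem_edgeFinset, SimpleGraph.edgeSet_fromEdgeSet]
    constructor
    · intro he
      exact he.1
    · intro he
      refine ⟨he, ?_⟩
      simp only [Es, mem_image, mem_univ, true_and] at he
      obtain ⟨x, rfl⟩ := he
      exact ed_not_diag m x
  have h3 := h1 (by rw [h2, fpoly]) hm0 q hroot
  linarith

end Pool.Agent.H36Flow
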