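import Mathlib
import Pool.Agent.H36Flow.Series
import Pool.Agent.H36Flow.Compute

set_option autoImplicit false

/-!
Correctness of the integer computation.
-/

namespace Pool.Agent.H36Flow

open Finset

lemma brec_true (c t : Bool) (h : (Bool.rec false t c : Bool) = true) : c = true ∧ t = true := by
  cases c
  · exact absurd h (by simp)
  · exact ⟨rfl, h⟩

/-- two plain convolution sums -/
def c0 : List ℕ → List ℕ → ℕ
  | [], _ => 0
  | (_ :: _), [] => 0
  | (x :: l), (y :: as) => y * x + c0 l as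

/-- weighted convolution sum -/
def c1 : ℕ → List ℕ → List ℕ → ℕ
  | _, [], _ => 0
  | _, (_ :: _), [] => 0
  | i, (x :: l), (y :: as) => i * (y * x) + c1 (i + 1) l as

lemma conv_spec (l : List ℕ) : ∀ (as : List ℕ) (i A0 A1 : ℕ) (k : ℕ → ℕ → Bool),
    conv l as i A0 A1 k = true →
      l.length ≤ as.length ∧ k (A0 + c0 l as) (A1 + c1 i l as) = true := by
  induction l with
  | nil =>
    intro as i A0 A1 k h
    refine ⟨Nat.zero_le _, ?_⟩
    have h' : k A0 A1 = true := h
    simpa [c0, c1] using h'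
  | cons x l ih =>
    intro as i A0 A1 k h
    cases as with
    | nil => exact absurd h (by simp [conv])
    | cons y as =>
      have h2 : conv l as (Nat.succ i) (Nat.add A0 (Nat.mul y x))
          (Nat.add A1 (Nat.mul i (Nat.mul y x))) k = true := h
      have h3 := ih _ _ _ _ _ h2
      refine ⟨by simpa using h3.1, ?_⟩
      have h4 := h3.2
      simp only [Nat.succ_eq_add_one, Nat.add_eq, Nat.mul_eq] at h4
      rw [c0, c1, ← add_assoc, ← add_assoc]
      exact h4

lemma c0_eq (l : List ℕ) : ∀ (as : List ℕ), l.length ≤ as.length →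
    ((c0 l as : ℕ) : ℝ) = ∑ j ∈ range l.length, ((as.getD j 0 : ℕ) : ℝ) * ((l.getD j 0 : ℕ) : ℝ) := by
  induction l with
  | nil => intro as _; simp [c0]
  | cons x l ih =>
    intro as h
    cases as with
    | nil => simp at h
    | cons y as =>
      rw [c0, List.length_cons, sum_range_succ']
      push_cast
      rw [ih as (by simpa using h)]
      simp only [List.getD_cons_succ, List.getD_cons_zero]
      ring

lemma c1_eq (l : List ℕ) : ∀ (i : ℕ) (as : List ℕ), l.length ≤ as.length →
    ((c1 i l as : ℕ) : ℝ) = ∑ j ∈ range l.length,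
      ((i : ℝ) + j) * (((as.getD j 0 : ℕ) : ℝ) * ((l.getD j 0 : ℕ) : ℝ)) := by
  induction l with
  | nil => intro i as _; simp [c1]
  | cons x l ih =>
    intro i as h
    cases as with
    | nil => simp at h
    | cons y as =>
      rw [c1, List.length_cons, sum_range_succ']
      push_cast
      rw [ih (i + 1) as (by simpa using h)]
      simp only [List.getD_cons_succ, List.getD_cons_zero]
      push_cast
      rw [add_comm]
      congr 1
      · exact sum_congr rfl fun j _ => by ring
      · ring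

lemma goodA_spec (K : ℕ) (l : List ℕ) : ∀ (i x : ℕ), goodA K l i x = true →
    (x : ℝ) = aR i * (K : ℝ) ^ i →
    ∀ j < l.length, ((l.getD j 0 : ℕ) : ℝ) = aR (i + 1 + j) * (K : ℝ) ^ (i + 1 + j) := by
  induction l with
  | nil => intro i x _ _ j hj; simp at hj
  | cons y l ih =>
    intro i x h hx j hj
    have h2 : (Bool.rec false (goodA K l (Nat.succ i) y)
      (Nat.beq (Nat.mul y (Nat.mul 2 (Nat.succ i)))
      (Nat.mul x (Nat.mul (Nat.mul 3 K)
        (Nat.mul (Nat.add (Nat.mul 6 i) 1) (Nat.add (Nat.mul 6 i) 5))))) : Bool) = true := h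
    obtain ⟨h3, h4⟩ := brec_true _ _ h2
    have h5 := Nat.eq_of_beq_eq_true h3
    simp only [Nat.succ_eq_add_one, Nat.add_eq, Nat.mul_eq] at h5
    have h6 : (y : ℝ) * (2 * (i + 1)) = x * (3 * K * ((6 * i + 1) * (6 * i + 5))) := by
      exact_mod_cast h5
    have hy : (y : ℝ) = aR (i + 1) * (K : ℝ) ^ (i + 1) := by
      rw [aR]
      have h7 : (2 * ((i : ℝ) + 1)) ≠ 0 := by positivity
      rw [hx] at h6
      field_simp
      rw [pow_succ]
      linear_combination h6
    cases j with
    | zero => simpa using hy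
    | succ j =>
      have := ih (i + 1) y h4 hy j (by simpa using hj)
      rw [List.getD_cons_succ, this]
      congr 2 <;> ring_nf

section

variable (a b : ℕ)

/-- value of the polynomial `Mt m` at `a/b` -/
noncomputable def xx (m : ℕ) : ℝ := (Mt m).eval ((a : ℝ) / b)

/-- the list `[nu_(m-1), ..., nu_0]` -/
def Valid (m : ℕ) (l : List ℕ) : Prop :=
  l.length = m ∧ ∀ j < m, ((l.getD j 0 : ℕ) : ℝ) = xx a b (m - 1 - j) * (4 * b : ℝ) ^ (m - 1 - j)

lemma nuLoop_spec (hb : 0 < b) (as : List ℕ)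
    (has : ∀ j < as.length, ((as.getD j 0 : ℕ) : ℝ) = aR (j + 1) * (4 * b : ℝ) ^ (j + 1))
    (fuel : ℕ) : ∀ (m : ℕ) (l : List ℕ) (k : List ℕ → Bool), 0 < m → Valid a b m l →
    nuLoop a b as fuel m l k = true → ∃ l', Valid a b (m + fuel) l' ∧ k l' = true := by
  induction fuel with
  | zero => intro m l k _ hl h; exact ⟨l, hl, h⟩
  | succ fuel ih =>
    intro m l k hm hl h
    have h2 := conv_spec l as 1 0 0 _ h
    obtain ⟨h3, h4⟩ := h2
    obtain ⟨h5, h6⟩ := brec_true _ _ h4
    have h7 := Nat.eq_of_beq_eq_true h5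
    set X := (Nat.div (Nat.sub (Nat.mul (Nat.add a b) (0 + c1 1 l as))
          (Nat.mul (Nat.mul b m) (0 + c0 l as))) (Nat.mul b m)) with hX
    simp only [Nat.add_eq, Nat.mul_eq, zero_add] at h7
    have h8 : (b : ℝ) * m * X + b * m * (c0 l as : ℕ) = (a + b) * (c1 1 l as : ℕ) := by
      exact_mod_cast h7
    obtain ⟨hlen, hval⟩ := hl
    have hb' : (b : ℝ) ≠ 0 := by positivity
    have hval2 : ∀ j ∈ range m, ((as.getD j 0 : ℕ) : ℝ) * ((l.getD j 0 : ℕ) : ℝ) =
        (4 * b : ℝ) ^ m * (aR (j + 1) * xx a b (m - 1 - j)) := by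
      intro j hj
      rw [mem_range] at hj
      rw [has j (by omega), hval j hj]
      have : m = (j + 1) + (m - 1 - j) := by omega
      conv_rhs => rw [this, pow_add]
      have e : (j + 1 + (m - 1 - j)) - 1 - j = m - 1 - j := by omega
      rw [e]
      ring
    have hc0 : ((c0 l as : ℕ) : ℝ) = (4 * b : ℝ) ^ m *
        ∑ j ∈ range m, aR (j + 1) * xx a b (m - 1 - j) := by
      rw [c0_eq l as h3, hlen, mul_sum]
      exact sum_congr rfl hval2
    have hc1 : ((c1 1 l as : ℕ) : ℝ) = (4 * b : ℝ) ^ m *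
        ∑ j ∈ range m, ((1 : ℝ) + j) * (aR (j + 1) * xx a b (m - 1 - j)) := by
      rw [c1_eq l 1 as h3, hlen, mul_sum]
      refine sum_congr rfl fun j hj => ?_
      rw [hval2 j hj]
      push_cast
      ring
    have hrec : (m : ℝ) * xx a b m = ∑ j ∈ range m,
        (((j : ℝ) + 1) * ((a : ℝ) / b) - (m - 1 - j : ℕ)) * (aR (j + 1) * xx a b (m - 1 - j)) := by
      obtain ⟨m', rfl⟩ : ∃ m', m = m' + 1 := ⟨m - 1, by omega⟩
      have h := Mt_rec ((a : ℝ) / b) m'
      rw [← Finset.Nat.sum_antidiagonal_swap, Finset.Nat.sum_antidiagonal_eq_sum_range_succ_mk] at h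
      simp only [Prod.swap_prod_mk, Nat.succ_eq_add_one] at h
      rw [xx]
      push_cast
      rw [h]
      refine sum_congr rfl fun j hj => ?_
      rw [xx]
      ring
    have hXval : (X : ℝ) = xx a b m * (4 * b : ℝ) ^ m := by
      have hbm : (b : ℝ) * m ≠ 0 := by positivity
      apply mul_left_cancel₀ hbm
      have h9 : (b : ℝ) * m * X = (a + b) * (c1 1 l as : ℕ) - b * m * (c0 l as : ℕ) := by
        linarith
      rw [h9, hc0, hc1]
      have h10 : (b : ℝ) * m * (xx a b m * (4 * b : ℝ) ^ m) =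
          (4 * b : ℝ) ^ m * (b * (m * xx a b m)) := by ring
      rw [h10, hrec]
      rw [mul_left_comm, mul_left_comm ((b : ℝ) * m), ← mul_sub]
      congr 1
      rw [mul_sum, mul_sum, mul_sum, ← sum_sub_distrib]
      refine sum_congr rfl fun j hj => ?_
      rw [mem_range] at hj
      have e : ((m - 1 - j : ℕ) : ℝ) = m - 1 - j := by
        rw [Nat.cast_sub (by omega), Nat.cast_sub (by omega)]
        simp
      rw [e]
      field_simp
      ring
    have hvalid : Valid a b (m + 1) (X :: l) := by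
      refine ⟨by simp [hlen], ?_⟩
      intro j hj
      cases j with
      | zero => simpa using hXval
      | succ j =>
        rw [List.getD_cons_succ, hval j (by omega)]
        have e : m + 1 - 1 - (j + 1) = m - 1 - j := by omega
        rw [e]
    have h11 := ih (m + 1) (X :: l) k (Nat.succ_pos m) hvalid h6
    have e : m + 1 + fuel = m + (fuel + 1) := by omega
    rw [e] at h11
    exact h11

/-- double factorials of odd numbers -/
noncomputable def df : ℕ → ℝ
  | 0 => 1
  | (n + 1) => (2 * n + 1) * df n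

lemma df_pos (n : ℕ) : 0 < df n := by
  induction n with
  | zero => simp [df]
  | succ n ih =>
    rw [df]
    positivity

lemma mom_neg (n : ℕ) : mom (-1) (2 * n) = (-1) ^ n * df n := by
  induction n with
  | zero => simp [df]
  | succ n ih =>
    rw [show 2 * (n + 1) = 2 * n + 2 by ring, mom_add_two, ih, df, pow_succ]
    push_cast
    ring

lemma df_fact (n : ℕ) : ((2 * n).factorial : ℝ) = 2 ^ n * n.factorial * df n := by
  induction n with
  | zero => simp [df]
  | succ n ih =>
    rw [show 2 * (n + 1) = 2 * n + 1 + 1 by ring, Nat.factorial_succ, Nat.factorial_succ,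
      Nat.factorial_succ, df]
    push_cast
    rw [ih]
    ring

/-- positive terms -/
noncomputable def rr (q : ℝ) (m j i f : ℕ) : ℝ :=
  3 ^ i * 2 ^ f * df (j + f) / (i.factorial * f.factorial) *
    ∏ t ∈ range i, (q + (6 * (m : ℝ) - 2 + 2 * t))

/-- their sum -/
noncomputable def cabs (q : ℝ) (m j : ℕ) : ℝ := ∑ l ∈ range (2 * j + 1), rr q m j l (2 * j - l)

lemma cp_eval (q : ℝ) (m j : ℕ) : (cp m j).eval q = (-1) ^ j * cabs q m j := by
  rw [cp, cabs]
  simp only [Polynomial.eval_finsetSum, Polynomial.eval_mul, Polynomial.eval_C,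
    Polynomial.eval_prod, Polynomial.eval_add, Polynomial.eval_X]
  rw [← Nat.succ_eq_add_one, ← Finset.Nat.sum_antidiagonal_eq_sum_range_succ
    (fun i f => rr q m j i f), mul_sum]
  refine sum_congr rfl fun p hp => ?_
  have hp' := mem_antidiagonal.mp hp
  have e : p.1 + 3 * p.2 = 2 * (j + p.2) := by omega
  rw [e, mom_neg, rr, pow_add, show ((-2 : ℝ)) ^ p.2 = (-1) ^ p.2 * 2 ^ p.2 from by
    rw [← mul_pow]; norm_num]
  have h1 : ((-1 : ℝ)) ^ p.2 * (-1) ^ p.2 = 1 := by
    rw [← mul_pow]; norm_num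
  linear_combination (3 ^ p.1 * 2 ^ p.2 * df (j + p.2) * (-1) ^ j /
    (p.1.factorial * p.2.factorial) * ∏ t ∈ range p.1, (q + (6 * (m : ℝ) - 2 + 2 * t))) * h1

lemma sLoop_spec (A m j : ℕ) (hb : 0 < b) (hA : A + 2 * b = a) (f : ℕ) :
    ∀ (i S P : ℕ) (k : ℕ → Bool), i + f = 2 * j →
    (P : ℝ) = (2 * j).factorial * (3 * b : ℝ) ^ i / f.factorial *
      ∏ t ∈ range i, ((a : ℝ) / b + (6 * (m : ℝ) - 2 + 2 * t)) →
    (S : ℝ) = (2 * b : ℝ) ^ i * i.factorial * (2 * j).factorial / (4 ^ j * df (j + f)) *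
      ∑ l ∈ range (i + 1), rr ((a : ℝ) / b) m j l (2 * j - l) →
    sLoop A b m j f i S P k = true →
    ∃ S' : ℕ, (S' : ℝ) = (b : ℝ) ^ (2 * j) * (2 * j).factorial * 2 ^ j * j.factorial *
      cabs ((a : ℝ) / b) m j ∧ k S' = true := by
  induction f with
  | zero =>
    intro i S P k hi hP hS h
    refine ⟨S, ?_, h⟩
    rw [add_zero] at hi
    subst hi
    have h1 := df_pos j
    have h2 : (2 * b : ℝ) ^ (2 * j) = 4 ^ j * (b : ℝ) ^ (2 * j) := by
      rw [mul_pow, pow_mul 2 2 j]
      norm_num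
    have h3 : (((2 * j).factorial : ℕ) : ℝ) / df j = 2 ^ j * j.factorial := by
      rw [df_fact]
      field_simp
    have h4 : (4 : ℝ) ^ j ≠ 0 := by positivity
    have h5 : (4 : ℝ) ^ j * (b : ℝ) ^ (2 * j) * ((2 * j).factorial : ℕ) * ((2 * j).factorial : ℕ)
        / (4 ^ j * df j) = (b : ℝ) ^ (2 * j) * ((2 * j).factorial : ℕ) *
        ((((2 * j).factorial : ℕ) : ℝ) / df j) := by
      field_simp
    rw [hS, cabs, add_zero, h2, h5, h3]
    ring
  | succ f ih =>
    intro i S P k hi hP hS h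
    have hb' : (b : ℝ) ≠ 0 := by positivity
    have hA' : (A : ℝ) = a - 2 * b := by
      have : (A : ℝ) + 2 * b = a := by exact_mod_cast hA
      linarith
    have hf : ((f + 1 : ℕ).factorial : ℝ) = (f + 1) * f.factorial := by
      rw [Nat.factorial_succ]
      push_cast
      ring
    have hf0 : (f.factorial : ℝ) ≠ 0 := by positivity
    have hi0 : (i.factorial : ℝ) ≠ 0 := by positivity
    have hf1 : ((f : ℝ) + 1) ≠ 0 := by positivity
    have hP2 : ((Nat.mul P (Nat.mul (Nat.mul 3 (Nat.succ f)) (Nat.add A (Nat.mul b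
          (Nat.add (Nat.mul 6 m) (Nat.mul 2 i)))))) : ℕ) =
        (2 * j).factorial * (3 * b : ℝ) ^ (i + 1) / f.factorial *
      ∏ t ∈ range (i + 1), ((a : ℝ) / b + (6 * (m : ℝ) - 2 + 2 * t)) := by
      simp only [Nat.succ_eq_add_one, Nat.add_eq, Nat.mul_eq]
      push_cast
      rw [hP, hA', prod_range_succ, hf]
      field_simp
      ring
    refine ih (i + 1) _ _ k (by omega) hP2 ?_ h
    have hadd : ∀ x y : ℕ, ((Nat.add x y : ℕ) : ℝ) = x + y := fun x y => Nat.cast_add x y
    have hd := df_pos (j + f)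
    have hd2 : df (j + (f + 1)) = (2 * ((j : ℝ) + f) + 1) * df (j + f) := by
      rw [← add_assoc, df]
      push_cast
      ring
    have hd3 : (2 * ((j : ℝ) + f) + 1) ≠ 0 := by positivity
    rw [hadd, hP2, sum_range_succ _ (i + 1), mul_add]
    congr 1
    · simp only [Nat.succ_eq_add_one, Nat.add_eq, Nat.mul_eq]
      push_cast
      rw [hS, hd2, Nat.factorial_succ]
      push_cast
      field_simp
      ring
    · have e1 : 2 * j - (i + 1) = f := by omega
      rw [e1, rr, Nat.factorial_succ]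
      have h4 : (4 : ℝ) ^ j = 2 ^ (i + 1) * 2 ^ f := by
        rw [← pow_add, show i + 1 + f = 2 * j by omega, pow_mul]
        norm_num
      rw [h4]
      push_cast
      have h6 : (2 * b : ℝ) ^ (i + 1) = 2 ^ (i + 1) * (b : ℝ) ^ (i + 1) := mul_pow _ _ _
      have h7 : (3 * b : ℝ) ^ (i + 1) = 3 ^ (i + 1) * (b : ℝ) ^ (i + 1) := mul_pow _ _ _
      rw [h6, h7]
      field_simp

/-- scaled terms -/
noncomputable def tt (N j : ℕ) : ℝ :=
  xx a b (N - j) * (4 * b : ℝ) ^ (N - j) * (cabs ((a : ℝ) / b) (N - j) j *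
    (4 * (b : ℝ) ^ 2) ^ j)

lemma finLoop_spec (A N : ℕ) (hb : 0 < b) (hA : A + 2 * b = a) (l : List ℕ) :
    ∀ (j p G U V : ℕ), l.length + j = N + 1 →
    (∀ i < l.length, ((l.getD i 0 : ℕ) : ℝ) = xx a b (N - j - i) * (4 * b : ℝ) ^ (N - j - i)) →
    p = 2 ^ j → G = j.factorial * (2 * j).factorial →
    finLoop a b A l j p G U V = true →
    ((U : ℝ) - V) * (-(a : ℝ)) ^ l.length +
      ∑ i ∈ range l.length, (-(a : ℝ)) ^ (l.length - 1 - i) * tt a b N (j + i) < 0 := by
  induction l with
  | nil =>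
    intro j p G U V _ _ _ _ h
    have h1 : Nat.blt U V = true := h
    have h2 : U < V := by simpa using h1
    have h3 : (U : ℝ) < V := by exact_mod_cast h2
    simp
    linarith
  | cons x l ih =>
    intro j p G U V hlen hval hp hG h
    have hlen' : l.length + (j + 1) = N + 1 := by
      simp only [List.length_cons] at hlen
      omega
    have hNj : l.length = N - j := by omega
    obtain ⟨S', hS', h2⟩ := sLoop_spec a b A l.length j hb hA (2 * j) 0 1 1 _ (by omega)
      (by simp; field_simp) (by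
        simp only [pow_zero, Nat.factorial_zero, Nat.cast_one, zero_add, range_one, sum_singleton,
          rr, range_zero, prod_empty, mul_one, one_mul, Nat.sub_zero]
        have h1 := df_pos (j + 2 * j)
        have h4 : (4 : ℝ) ^ j = 2 ^ (2 * j) := by
          rw [pow_mul]
          norm_num
        rw [h4]
        field_simp) h
    obtain ⟨h3, h4⟩ := brec_true _ _ h2
    have h5 := Nat.eq_of_beq_eq_true h3
    set Cj := Nat.div (Nat.mul S' p) G with hCj
    simp only [Nat.mul_eq] at h5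
    have h6 : (Cj : ℝ) = cabs ((a : ℝ) / b) (N - j) j * (4 * (b : ℝ) ^ 2) ^ j := by
      have h7 : (Cj : ℝ) * G = S' * p := by exact_mod_cast h5
      have hG0 : (G : ℝ) ≠ 0 := by
        rw [hG]
        positivity
      apply mul_right_cancel₀ hG0
      rw [h7, hS', hp, hG, hNj]
      push_cast
      have h8 : (4 * (b : ℝ) ^ 2) ^ j = 2 ^ j * 2 ^ j * (b : ℝ) ^ (2 * j) := by
        rw [mul_pow, ← pow_mul, ← mul_pow]
        norm_num
      rw [h8]
      ring
    have hx : (x : ℝ) = xx a b (N - j) * (4 * b : ℝ) ^ (N - j) := by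
      have := hval 0 (by simp)
      simpa using this
    have hval' : ∀ i < l.length, ((l.getD i 0 : ℕ) : ℝ) =
        xx a b (N - (j + 1) - i) * (4 * b : ℝ) ^ (N - (j + 1) - i) := by
      intro i hi
      have := hval (i + 1) (by simpa using hi)
      rw [List.getD_cons_succ] at this
      rw [this]
      have e : N - j - (i + 1) = N - (j + 1) - i := by omega
      rw [e]
    have h9 := ih (j + 1) (Nat.mul p 2) (Nat.mul G (Nat.mul (Nat.succ j) (Nat.mul
            (Nat.succ (Nat.mul 2 j)) (Nat.succ (Nat.succ (Nat.mul 2 j))))))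
          (Nat.add (Nat.mul V a) (Nat.mul x Cj)) (Nat.mul U a) hlen' hval'
          (by rw [hp, Nat.mul_eq, pow_succ])
          (by
            rw [hG, show 2 * (j + 1) = 2 * j + 1 + 1 by ring, Nat.factorial_succ (2 * j + 1),
              Nat.factorial_succ (2 * j), Nat.factorial_succ j]
            simp only [Nat.mul_eq, Nat.succ_eq_add_one]
            ring) h4
    rw [List.length_cons, sum_range_succ']
    have e1 : l.length + 1 - 1 - 0 = l.length := by omega
    rw [e1, add_zero]
    have e2 : ∑ i ∈ range l.length, (-(a : ℝ)) ^ (l.length + 1 - 1 - (i + 1)) *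
        tt a b N (j + (i + 1)) =
        ∑ i ∈ range l.length, (-(a : ℝ)) ^ (l.length - 1 - i) * tt a b N (j + 1 + i) := by
      refine sum_congr rfl fun i hi => ?_
      have e3 : l.length + 1 - 1 - (i + 1) = l.length - 1 - i := by omega
      have e4 : j + (i + 1) = j + 1 + i := by omega
      rw [e3, e4]
    rw [e2]
    have e5 : ((Nat.add (Nat.mul V a) (Nat.mul x Cj) : ℕ) : ℝ) - ((Nat.mul U a : ℕ) : ℝ) =
        tt a b N j - a * ((U : ℝ) - V) := by
      simp only [Nat.add_eq, Nat.mul_eq]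
      push_cast
      rw [h6, hx, tt]
      ring
    rw [e5] at h9
    rw [pow_succ]
    linarith

end

theorem Rp_neg (N a b A : ℕ) (hb : 0 < b) (hA : A + 2 * b = a) (hN : Even N)
    (h : checkAll N a b A = true) : (Rp N).eval ((a : ℝ) / b) < 0 := by
  obtain ⟨hgood, h1⟩ := brec_true _ _ h
  have has := goodA_spec (4 * b) _ 0 1 hgood (by simp [aR])
  obtain ⟨l, hl, h2⟩ := nuLoop_spec a b hb (aList (4 * b) N 0 1) (by
    intro j hj
    have := has j hj
    rw [zero_add, add_comm 1 j] at this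
    rw [this]
    push_cast
    rfl) N 1 [1] _ one_pos ⟨rfl, by
      intro j hj
      have : j = 0 := by omega
      subst this
      simp [xx, Mt]⟩ h1
  obtain ⟨hlen, hval⟩ := hl
  have h3 := finLoop_spec a b A N hb hA l 0 1 1 0 0 (by omega) (by
    intro i hi
    rw [hval i (by omega)]
    have e : 1 + N - 1 - i = N - 0 - i := by omega
    rw [e]) rfl rfl h2
  rw [hlen] at h3
  simp only [Nat.cast_zero, sub_self, zero_mul, zero_add] at h3
  have hb' : (b : ℝ) ≠ 0 := by positivity
  have hpos : (0 : ℝ) < (4 * (b : ℝ) ^ 2) ^ N := by positivity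
  have h4 : (Rp N).eval ((a : ℝ) / b) * (4 * (b : ℝ) ^ 2) ^ N =
      ∑ i ∈ range (1 + N), (-(a : ℝ)) ^ (1 + N - 1 - i) * tt a b N i := by
    rw [Rp]
    simp only [Polynomial.eval_finsetSum, Polynomial.eval_mul, Polynomial.eval_pow,
      Polynomial.eval_X, cp_eval]
    rw [← Finset.Nat.sum_antidiagonal_swap, Finset.Nat.sum_antidiagonal_eq_sum_range_succ_mk,
      sum_mul, add_comm 1 N]
    refine sum_congr rfl fun j hj => ?_
    have hj' : j ≤ N := by
      have := mem_range.mp hj
      omega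
    simp only [Prod.swap_prod_mk]
    have e : N + 1 - 1 - j = N - j := by omega
    rw [e, tt, xx]
    have e2 : (4 * (b : ℝ) ^ 2) ^ N = (4 * (b : ℝ)) ^ (N - j) * (b : ℝ) ^ (N - j) *
        (4 * (b : ℝ) ^ 2) ^ j := by
      rw [← mul_pow, show 4 * (b : ℝ) * b = 4 * (b : ℝ) ^ 2 by ring, ← pow_add]
      congr 1
      omega
    have e3 : (-(a : ℝ)) ^ (N - j) = (-1) ^ j * (a : ℝ) ^ (N - j) := by
      rw [neg_pow]
      congr 1
      obtain ⟨r, hr⟩ := hN
      rcases Nat.even_or_odd j with hj2 | hj2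
      · rw [hj2.neg_one_pow]
        exact ((Nat.even_sub hj').mpr ⟨fun _ => hj2, fun _ => ⟨r, hr⟩⟩).neg_one_pow
      · rw [hj2.neg_one_pow]
        exact (Nat.Even.sub_odd hj' ⟨r, hr⟩ hj2).neg_one_pow
    rw [e2, e3, div_pow]
    field_simp
  rw [← h4] at h3
  exact neg_of_mul_neg_left h3 hpos.le

end Pool.Agent.H36Flow
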